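import Mathlib

/-!
# A kernel-friendly checker for centrally symmetric simplicial fans in `ℝ^7`

The vertices are `X 0, ..., X 38` (codes `0, ..., 38`) and `-X 0, ..., -X 38` (codes
`39, ..., 77`). A facet (up to sign) is stored in a binary search tree: its key is the bit mask of
its seven codes; the payload contains the seven codes, for every one of them the opposite vertex of
the neighbouring facet (with a flag telling whether the neighbour has to be negated), and the
supporting functional.
-/

set_option autoImplicit false

namespace Pool.Agent.R770.Chk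

inductive Tr : Type
  | nil : Tr
  | node : Nat → Nat → Tr → Tr → Tr

def Tr.mem (M : Nat) : Tr → Bool
  | .nil => false
  | .node k _ l r => bif Nat.beq M k then true else bif Nat.blt M k then l.mem M else r.mem M

def Tr.all (p : Nat → Nat → Bool) : Tr → Bool
  | .nil => true
  | .node k q l r => p k q && (l.all p && r.all p)

/-- the node `(k, q)` occurs in the tree -/
def Tr.In (k q : Nat) : Tr → Prop
  | .nil => False
  | .node k' q' l r => (k = k' ∧ q = q') ∨ l.In k q ∨ r.In k q

/-- the first `n` digits of `x` in base `b` -/
def digits (b : Nat) : Nat → Nat → List Nat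
  | 0, _ => []
  | n + 1, x => x % b :: digits b n (x / b)

def orMask : List Nat → Nat
  | [] => 0
  | v :: vs => Nat.lor (2 ^ v) (orMask vs)

def opp (v : Nat) : Nat := bif Nat.blt v 39 then v + 39 else v - 39

def allLt (b : Nat) : List Nat → Bool
  | [] => true
  | v :: vs => Nat.blt v b && allLt b vs

def sumL : List Nat → Nat
  | [] => 0
  | v :: vs => v + sumL vs

def rowsOK (L H c : Nat) : List (Nat × Nat) → Nat → Nat → Nat → Bool
  | [], _, _, cnt => Nat.beq cnt 7
  | (P, E) :: rs, a, b, cnt =>
    bif Nat.beq (a % 2) 1 then
      (Nat.beq (b % 2) 0 && Nat.beq ((P * L / 79228162514264337593543950336) % 65536 + E) (H + c)) &&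
        rowsOK L H c rs (a / 2) (b / 2) (cnt + 1)
    else bif Nat.beq (b % 2) 1 then
      Nat.beq ((P * L / 79228162514264337593543950336) % 65536 + E + c) H &&
        rowsOK L H c rs (a / 2) (b / 2) (cnt + 1)
    else
      (Nat.blt ((P * L / 79228162514264337593543950336) % 65536 + E) (H + c) &&
        Nat.blt H ((P * L / 79228162514264337593543950336) % 65536 + E + c)) &&
        rowsOK L H c rs (a / 2) (b / 2) cnt

/-- the neighbours across the ridges -/
def nbOK (T : Tr) (M Mn : Nat) : List Nat → List Nat → Bool
  | v :: vs, u :: us =>
    (bif Nat.blt u 128 then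
      !(Nat.beq u v) && T.mem (Nat.lor (Nat.xor M (2 ^ v)) (2 ^ u))
    else
      !(Nat.beq (u - 128) (opp v)) && T.mem (Nat.lor (Nat.xor Mn (2 ^ (opp v))) (2 ^ (u - 128)))) &&
      nbOK T M Mn vs us
  | [], _ => true
  | _, [] => false

/-- compatibility of the vertices of a facet, `C` is the table of masks -/
def compOK (C M : Nat) : List Nat → Bool
  | [] => true
  | v :: vs => Nat.beq (Nat.land M (C / 2 ^ (78 * v))) M && compOK C M vs

def chk (T : Tr) (C : Nat) (rows : List (Nat × Nat)) (M p : Nat) : Bool :=
  let vs := digits 128 7 p
  let q := p / 562949953421312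
  let us := digits 256 7 q
  let r := q / 72057594037927936
  let L := r % 5192296858534827628530496329220096
  let c := r / 5192296858534827628530496329220096
  let ls := digits 65536 7 L
  (Nat.beq M (orMask vs) && allLt 78 vs) && (allLt 256 ls && Nat.blt 0 c) &&
    (rowsOK L (65536 + 16 * sumL ls) c rows (M % 549755813888) (M / 549755813888) 0 &&
    (nbOK T M (orMask (vs.map opp)) vs us && compOK C M vs))

end Pool.Agent.R770.Chk
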