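import Mathlib

/-!
# Centrally symmetric complete simplicial fans and triangulations of projective spaces

Given finitely many points `X i` of `ℝ^d` (and their antipodes) and a centrally symmetric family of
facets (sign vectors `s F`), with supporting functionals `ℓ F`, such that every ridge is in a second
facet and antipodal vertices have disjoint stars, the quotient of the boundary complex by the
antipodal map triangulates `ℝP^(d-1)`.
-/

set_option autoImplicit false

open Finset

namespace Pool.Agent.R770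

/-- Antipodal points of the unit sphere (and equal points) are related. -/
def antipodal (d : ℕ) (x y : Metric.sphere (0 : EuclideanSpace ℝ (Fin d)) 1) : Prop :=
  (x : EuclideanSpace ℝ (Fin d)) = (y : EuclideanSpace ℝ (Fin d)) ∨
    (x : EuclideanSpace ℝ (Fin d)) = -(y : EuclideanSpace ℝ (Fin d))

/-- The combinatorial and convexity data. -/
structure FanData (E : Type) [NormedAddCommGroup E] [NormedSpace ℝ E] (N : ℕ) (ι : Type) where
  X : Fin N → E
  s : ι → Fin N → ℤ
  l : ι → E →ₗ[ℝ] ℝ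
  hs : ∀ F i, s F i = 0 ∨ s F i = 1 ∨ s F i = -1
  hl1 : ∀ F i, s F i ≠ 0 → l F (X i) = s F i
  hl2 : ∀ F i, s F i = 0 → |l F (X i)| < 1
  hnb : ∀ F i, s F i ≠ 0 → ∃ F', s F' i ≠ s F i ∧ ∀ j, j ≠ i → s F j ≠ 0 → s F' j = s F j
  hcard : ∀ F, (Finset.univ.filter (fun i => s F i ≠ 0)).card = Module.finrank ℝ E
  hrel : ∀ F F' i j, s F i ≠ 0 → s F j ≠ 0 → s F' i ≠ 0 → s F' j ≠ 0 →
    s F i * s F j = s F' i * s F' j
  hcov : ∀ i, ∃ F, s F i ≠ 0
  hneg : ∀ F, ∃ F', ∀ i, s F' i = - s F i

namespace FanData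

variable {E : Type} [NormedAddCommGroup E] [NormedSpace ℝ E] {N : ℕ} {ι : Type}
  (D : FanData E N ι)

theorem sq_one {F : ι} {i : Fin N} (h : D.s F i ≠ 0) : ((D.s F i : ℤ) : ℝ) * (D.s F i : ℝ) = 1 := by
  rcases D.hs F i with h1 | h1 | h1
  · exact absurd h1 h
  · rw [h1]; norm_num
  · rw [h1]; norm_num

theorem abs_le (F : ι) (i : Fin N) : |D.l F (D.X i)| ≤ 1 := by
  by_cases h : D.s F i = 0
  · exact (D.hl2 F i h).le
  · rw [D.hl1 F i h]
    rcases D.hs F i with h1 | h1 | h1
    · exact absurd h1 h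
    · rw [h1]; norm_num
    · rw [h1]; norm_num

/-- a facet not containing the signed vertex has functional value `< 1` there -/
theorem lt_one {F F' : ι} {i : Fin N} (h : D.s F i ≠ 0) (h' : D.s F' i ≠ D.s F i) :
    (D.s F i : ℝ) * D.l F' (D.X i) < 1 := by
  by_cases h0 : D.s F' i = 0
  · have h1 := abs_lt.mp (D.hl2 F' i h0)
    rcases D.hs F i with h2 | h2 | h2
    · exact absurd h2 h
    · rw [h2]; push_cast; linarith [h1.2]
    · rw [h2]; push_cast; linarith [h1.1]
  · rw [D.hl1 F' i h0]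
    rcases D.hs F i with h2 | h2 | h2
    · exact absurd h2 h
    · rcases D.hs F' i with h3 | h3 | h3
      · exact absurd h3 h0
      · exact absurd (h3.trans h2.symm) h'
      · rw [h2, h3]; norm_num
    · rcases D.hs F' i with h3 | h3 | h3
      · exact absurd h3 h0
      · rw [h2, h3]; norm_num
      · exact absurd (h3.trans h2.symm) h'

/-- `a` is supported on the facet `F` -/
def Supp (F : ι) (a : Fin N → ℝ) : Prop := ∀ i, D.s F i = 0 → a i = 0

theorem map_sum (F : ι) (a : Fin N → ℝ) :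
    D.l F (∑ i, a i • D.X i) = ∑ i, a i * D.l F (D.X i) := by
  rw [_root_.map_sum]
  exact Finset.sum_congr rfl (fun i _ => by rw [map_smul, smul_eq_mul])

theorem map_sum_supp {F : ι} {a : Fin N → ℝ} (ha : D.Supp F a) :
    D.l F (∑ i, a i • D.X i) = ∑ i, (D.s F i : ℝ) * a i := by
  rw [D.map_sum]
  refine Finset.sum_congr rfl (fun i _ => ?_)
  by_cases h : D.s F i = 0
  · rw [ha i h]; simp
  · rw [D.hl1 F i h]; ring

/-- The key difference formula for a neighbouring facet. -/
theorem diff_nb {F F' : ι} {i : Fin N} (hi : D.s F i ≠ 0)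
    (h' : ∀ j, j ≠ i → D.s F j ≠ 0 → D.s F' j = D.s F j) {a : Fin N → ℝ} (ha : D.Supp F a) :
    D.l F' (∑ j, a j • D.X j) - D.l F (∑ j, a j • D.X j) =
      a i * (D.l F' (D.X i) - D.s F i) := by
  rw [D.map_sum, D.map_sum, ← Finset.sum_sub_distrib, Finset.sum_eq_single i]
  · rw [D.hl1 F i hi]; ring
  · intro j _ hj
    by_cases h0 : D.s F j = 0
    · rw [ha j h0]; ring
    · rw [D.hl1 F j h0, D.hl1 F' j (by rw [h' j hj h0]; exact h0), h' j hj h0]; ring
  · intro h; exact absurd (Finset.mem_univ i) h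

theorem indep {F : ι} {a : Fin N → ℝ} (ha : D.Supp F a) (h0 : ∑ i, a i • D.X i = 0) : a = 0 := by
  funext i
  by_cases hi : D.s F i = 0
  · exact ha i hi
  · obtain ⟨F', h1, h2⟩ := D.hnb F i hi
    have h3 := D.diff_nb hi h2 ha
    rw [h0, map_zero, map_zero, sub_zero] at h3
    have h4 := D.lt_one hi h1
    have h5 := D.sq_one hi
    rcases mul_eq_zero.mp h3.symm with h6 | h6
    · exact h6
    · exfalso
      have h7 : D.l F' (D.X i) = D.s F i := by linarith
      rw [h7] at h4
      linarith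

theorem span [FiniteDimensional ℝ E] (F : ι) (x : E) :
    ∃ a : Fin N → ℝ, D.Supp F a ∧ ∑ i, a i • D.X i = x := by
  classical
  let T : ({i // D.s F i ≠ 0} → ℝ) →ₗ[ℝ] E :=
    { toFun := fun b => ∑ i, b i • D.X i.1
      map_add' := by
        intro b c
        simp only [Pi.add_apply, add_smul, Finset.sum_add_distrib]
      map_smul' := by
        intro r b
        simp only [Pi.smul_apply, smul_eq_mul, mul_smul, Finset.smul_sum, RingHom.id_apply] }
  have hext : ∀ b : {i // D.s F i ≠ 0} → ℝ,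
      ∑ i, (if h : D.s F i ≠ 0 then b ⟨i, h⟩ else 0) • D.X i = T b := by
    intro b
    change _ = ∑ i : {i // D.s F i ≠ 0}, b i • D.X i.1
    have h1 : ∑ i, (if h : D.s F i ≠ 0 then b ⟨i, h⟩ else 0) • D.X i =
        ∑ i ∈ Finset.univ.filter (fun i => D.s F i ≠ 0),
          (if h : D.s F i ≠ 0 then b ⟨i, h⟩ else 0) • D.X i := by
      symm
      apply Finset.sum_filter_of_ne
      intro i _ h
      by_contra h2
      apply h
      simp [h2]
    rw [h1, Finset.sum_subtype (p := fun i => D.s F i ≠ 0) _ (by simp)]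
    refine Finset.sum_congr rfl (fun i _ => ?_)
    simp [i.2]
  have hinj : Function.Injective T := by
    rw [← LinearMap.ker_eq_bot, LinearMap.ker_eq_bot']
    intro b hb
    have h1 := D.indep (F := F) (a := fun i => if h : D.s F i ≠ 0 then b ⟨i, h⟩ else 0)
      (fun i hi => by simp [hi]) (by rw [hext, hb])
    funext i
    have h2 := congrFun h1 i.1
    simpa [i.2] using h2
  have hsurj : Function.Surjective T := by
    rw [← LinearMap.injective_iff_surjective_of_finrank_eq_finrank]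
    · exact hinj
    · rw [Module.finrank_fintype_fun_eq_card, Fintype.card_subtype]
      exact D.hcard F
  obtain ⟨b, hb⟩ := hsurj x
  exact ⟨fun i => if h : D.s F i ≠ 0 then b ⟨i, h⟩ else 0, fun i hi => by simp [hi],
    by rw [hext, hb]⟩

theorem complete [FiniteDimensional ℝ E] [Finite ι] [Nonempty ι] (x : E) :
    ∃ (F : ι) (a : Fin N → ℝ), D.Supp F a ∧ (∀ i, 0 ≤ (D.s F i : ℝ) * a i) ∧
      ∑ i, a i • D.X i = x := by
  obtain ⟨F, hF⟩ := Finite.exists_max (fun F => D.l F x)
  obtain ⟨a, ha, hax⟩ := D.span F x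
  refine ⟨F, a, ha, fun i => ?_, hax⟩
  by_cases hi : D.s F i = 0
  · rw [hi]; simp
  · obtain ⟨F', h1, h2⟩ := D.hnb F i hi
    have h3 := D.diff_nb hi h2 ha
    rw [hax] at h3
    have h4 := D.lt_one hi h1
    have h5 := D.sq_one hi
    have h6 : D.l F' x ≤ D.l F x := hF F'
    have h7 : a i * (D.l F' (D.X i) - D.s F i) ≤ 0 := by linarith
    have h8 : ((D.s F i : ℝ) * a i) * ((D.s F i : ℝ) * D.l F' (D.X i) - 1) ≤ 0 := by
      have : ((D.s F i : ℝ) * a i) * ((D.s F i : ℝ) * D.l F' (D.X i) - 1) =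
          a i * (((D.s F i : ℝ) * (D.s F i : ℝ)) * D.l F' (D.X i) - D.s F i) := by ring
      rw [this, h5, one_mul]; exact h7
    by_contra hc
    push Not at hc
    have h9 : (D.s F i : ℝ) * D.l F' (D.X i) - 1 < 0 := by linarith
    nlinarith [mul_pos_of_neg_of_neg hc h9]

theorem le_of_nonneg {F F' : ι} {b : Fin N → ℝ} (hb : D.Supp F' b)
    (hb' : ∀ i, 0 ≤ (D.s F' i : ℝ) * b i) (i : Fin N) :
    b i * D.l F (D.X i) ≤ (D.s F' i : ℝ) * b i := by
  by_cases hi : D.s F' i = 0
  · rw [hb i hi]; simp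
  · have h1 := D.abs_le F i
    have h2 := hb' i
    have h3 := D.sq_one hi
    have h4 := _root_.abs_le.mp h1
    rcases D.hs F' i with h5 | h5 | h5
    · exact absurd h5 hi
    · rw [h5] at h2 ⊢; push_cast at h2 ⊢; nlinarith [h4.2]
    · rw [h5] at h2 ⊢; push_cast at h2 ⊢; nlinarith [h4.1]

theorem unique {F F' : ι} {a b : Fin N → ℝ} (ha : D.Supp F a) (hb : D.Supp F' b)
    (ha' : ∀ i, 0 ≤ (D.s F i : ℝ) * a i) (hb' : ∀ i, 0 ≤ (D.s F' i : ℝ) * b i)
    (h : ∑ i, a i • D.X i = ∑ i, b i • D.X i) : a = b := by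
  have h1 : D.l F (∑ i, a i • D.X i) = ∑ i, (D.s F i : ℝ) * a i := D.map_sum_supp ha
  have h2 : D.l F' (∑ i, b i • D.X i) = ∑ i, (D.s F' i : ℝ) * b i := D.map_sum_supp hb
  have h3 : D.l F (∑ i, b i • D.X i) ≤ ∑ i, (D.s F' i : ℝ) * b i := by
    rw [D.map_sum]
    exact Finset.sum_le_sum (fun i _ => D.le_of_nonneg hb hb' i)
  have h4 : D.l F' (∑ i, a i • D.X i) ≤ ∑ i, (D.s F i : ℝ) * a i := by
    rw [D.map_sum]
    exact Finset.sum_le_sum (fun i _ => D.le_of_nonneg ha ha' i)
  rw [h] at h1 h4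
  have h5 : ∑ i, b i * D.l F (D.X i) = ∑ i, (D.s F' i : ℝ) * b i := by
    rw [← D.map_sum]
    linarith
  have h6 : ∀ i ∈ Finset.univ, b i * D.l F (D.X i) = (D.s F' i : ℝ) * b i :=
    (Finset.sum_eq_sum_iff_of_le (fun i _ => D.le_of_nonneg hb hb' i)).mp h5
  have h7 : D.Supp F b := by
    intro i hi
    by_contra hne
    have hi' : D.s F' i ≠ 0 := fun h0 => hne (hb i h0)
    have h8 := h6 i (Finset.mem_univ i)
    have h9 : D.l F (D.X i) = (D.s F' i : ℝ) := by
      rw [mul_comm] at h8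
      exact mul_right_cancel₀ hne h8
    have h10 := D.hl2 F i hi
    rw [h9] at h10
    rcases D.hs F' i with h11 | h11 | h11
    · exact hi' h11
    · rw [h11] at h10; norm_num at h10
    · rw [h11] at h10; norm_num at h10
  have h8 : (fun i => a i - b i) = 0 := by
    refine D.indep (F := F) (fun i hi => by rw [ha i hi, h7 i hi, sub_zero]) ?_
    simp only [sub_smul, Finset.sum_sub_distrib]
    rw [h, sub_self]
  funext i
  have := congrFun h8 i
  simp only [Pi.zero_apply] at this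
  linarith

end FanData

end Pool.Agent.R770
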