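import Pool.Agent.R770.FanTop

/-!
# The complex of fan data triangulates projective space
-/

set_option autoImplicit false

open Finset

namespace Pool.Agent.R770

/-- closed graph theorem with compact codomain -/
theorem continuous_of_closed_graph {A B : Type*} [TopologicalSpace A] [TopologicalSpace B]
    [CompactSpace B] (f : A → B) (h : IsClosed {p : A × B | p.2 = f p.1}) : Continuous f := by
  rw [continuous_iff_isClosed]
  intro C hC
  have h1 : f ⁻¹' C = Prod.fst '' ({p : A × B | p.2 = f p.1} ∩ (Prod.snd ⁻¹' C)) := by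
    ext a
    constructor
    · intro ha
      exact ⟨(a, f a), ⟨rfl, ha⟩, rfl⟩
    · rintro ⟨⟨a', b⟩, ⟨h1, h2⟩, rfl⟩
      simp only [Set.mem_ofPred_eq] at h1
      simp only [Set.mem_preimage] at h2 ⊢
      rw [← h1]; exact h2
  rw [h1]
  exact isClosedMap_fst_of_compactSpace _ (h.inter (hC.preimage continuous_snd))

namespace FanData

variable {d N : ℕ} {ι : Type} (D : FanData (EuclideanSpace ℝ (Fin d)) N ι)

theorem isCompact_space : IsCompact D.cplx.space := by
  classical
  have hfin : D.cplx.faces.Finite := by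
    refine Set.Finite.subset (Set.finite_range (fun u : Finset (Fin N) => u.image (bv N))) ?_
    rintro t ⟨u, _, rfl⟩
    exact ⟨u, rfl⟩
  unfold Geometry.SimplicialComplex.space
  exact hfin.isCompact_biUnion (fun s _ => s.finite_toSet.isCompact_convexHull ℝ)

theorem homeo [Finite ι] [Nonempty ι] :
    Nonempty (D.cplx.space ≃ₜ Quot (antipodal d)) := by
  classical
  haveI : CompactSpace D.cplx.space := isCompact_iff_compactSpace.mp D.isCompact_space
  let S := Metric.sphere (0 : EuclideanSpace ℝ (Fin d)) 1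
  have hS : ∀ x : S, ‖(x : EuclideanSpace ℝ (Fin d))‖ = 1 := fun x => by
    have := x.2
    rwa [mem_sphere_zero_iff_norm] at this
  have hex : ∀ x : S, ∃ y : D.cplx.space, ∃ F, D.Rel F (x : EuclideanSpace ℝ (Fin d)) y := by
    intro x
    obtain ⟨y, hy, h⟩ := D.exists_rel (hS x)
    exact ⟨⟨y, hy⟩, h⟩
  choose f hf using hex
  have hgraph : {p : S × D.cplx.space | p.2 = f p.1} =
      ⋃ F, {p : S × D.cplx.space | D.Rel F (p.1 : EuclideanSpace ℝ (Fin d)) p.2} := by
    ext ⟨x, y⟩
    simp only [Set.mem_ofPred_eq, Set.mem_iUnion]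
    constructor
    · rintro rfl
      exact hf x
    · rintro ⟨F, hF⟩
      obtain ⟨F', hF'⟩ := hf x
      exact Subtype.ext (D.rel_unique y.2 (f x).2 hF hF')
  have hclosed : ∀ F, IsClosed {p : S × D.cplx.space |
      D.Rel F (p.1 : EuclideanSpace ℝ (Fin d)) p.2} := by
    intro F
    have h1 : {p : S × D.cplx.space | D.Rel F (p.1 : EuclideanSpace ℝ (Fin d)) p.2} =
        (⋂ i, {p : S × D.cplx.space | D.s F i = 0 → (p.2 : EuclideanSpace ℝ (Fin N)) i = 0}) ∩
        {p : S × D.cplx.space | ‖D.z F p.2‖ • (p.1 : EuclideanSpace ℝ (Fin d)) = D.z F p.2} := by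
      ext p
      simp only [Set.mem_ofPred_eq, Set.mem_inter_iff, Set.mem_iInter]
      exact Iff.rfl
    rw [h1]
    refine IsClosed.inter (isClosed_iInter (fun i => ?_)) ?_
    · by_cases hi : D.s F i = 0
      · have : {p : S × D.cplx.space | D.s F i = 0 → (p.2 : EuclideanSpace ℝ (Fin N)) i = 0} =
            {p : S × D.cplx.space | (p.2 : EuclideanSpace ℝ (Fin N)) i = 0} := by
          ext p; simp [hi]
        rw [this]
        exact isClosed_eq (by fun_prop) continuous_const
      · have : {p : S × D.cplx.space | D.s F i = 0 → (p.2 : EuclideanSpace ℝ (Fin N)) i = 0} =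
            Set.univ := by
          ext p; simp [hi]
        rw [this]; exact isClosed_univ
    · have hc : Continuous (fun p : S × D.cplx.space =>
          D.z F (p.2 : EuclideanSpace ℝ (Fin N))) :=
        (D.continuous_z F).comp (continuous_subtype_val.comp continuous_snd)
      exact isClosed_eq (hc.norm.smul (continuous_subtype_val.comp continuous_fst)) hc
  have hcont : Continuous f := by
    apply continuous_of_closed_graph
    rw [hgraph]
    exact isClosed_iUnion_of_finite hclosed
  have hresp : ∀ x x' : S, antipodal d x x' → f x = f x' := by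
    rintro x x' (h | h)
    · rw [Subtype.ext h]
    · obtain ⟨F, hF⟩ := hf x
      obtain ⟨F', hF'⟩ := hf x'
      obtain ⟨F'', hF''⟩ := D.rel_neg hF'
      rw [← h] at hF''
      exact Subtype.ext (D.rel_unique (f x).2 (f x').2 hF hF'')
  let g : Quot (antipodal d) → D.cplx.space := Quot.lift f hresp
  have hg : Continuous g := continuous_quot_lift hresp hcont
  have hinj : Function.Injective g := by
    rintro ⟨x⟩ ⟨x'⟩ h
    change f x = f x' at h
    obtain ⟨F, hF⟩ := hf x
    obtain ⟨F', hF'⟩ := hf x'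
    rw [← h] at hF'
    exact Quot.sound (D.rel_inj (f x).2 hF hF')
  have hsurj : Function.Surjective g := by
    intro y
    obtain ⟨-, h1, F, hF⟩ := (D.mem_space y).mp y.2
    have hz := D.z_ne_zero hF h1
    have hn : ‖D.z F y‖ ≠ 0 := norm_ne_zero_iff.mpr hz
    let x : S := ⟨‖D.z F y‖⁻¹ • D.z F y, by
      rw [mem_sphere_zero_iff_norm, norm_smul, norm_inv, norm_norm, inv_mul_cancel₀ hn]⟩
    have hR : D.Rel F (x : EuclideanSpace ℝ (Fin d)) y := by
      refine ⟨hF, ?_⟩
      change ‖D.z F y‖ • (‖D.z F y‖⁻¹ • D.z F y) = D.z F y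
      rw [smul_smul, mul_inv_cancel₀ hn, one_smul]
    refine ⟨Quot.mk _ x, ?_⟩
    change f x = y
    obtain ⟨F', hF'⟩ := hf x
    exact Subtype.ext (D.rel_unique (f x).2 y.2 hF' hR)
  haveI : CompactSpace (Quot (antipodal d)) := by
    haveI : CompactSpace S := isCompact_iff_compactSpace.mp (isCompact_sphere _ _)
    exact Quot.compactSpace
  exact ⟨(Continuous.homeoOfEquivCompactToT2 (f := Equiv.ofBijective g ⟨hinj, hsurj⟩) hg).symm⟩

end FanData

end Pool.Agent.R770
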