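import Pool.Agent.R770.Fan

/-!
# The triangulation of projective space defined by fan data
-/

set_option autoImplicit false

open Finset

namespace Pool.Agent.R770

namespace FanData

variable {E : Type} [NormedAddCommGroup E] [NormedSpace ℝ E] {N : ℕ} {ι : Type}
  (D : FanData E N ι)

/-- the standard basis vectors of `ℝ^N` -/
noncomputable def bv (N : ℕ) (i : Fin N) : EuclideanSpace ℝ (Fin N) := EuclideanSpace.single i (1 : ℝ)

theorem bv_apply {N : ℕ} (i j : Fin N) : (bv N i) j = if j = i then 1 else 0 := by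
  rw [bv, PiLp.single_apply]

theorem bv_linearIndependent (N : ℕ) : LinearIndependent ℝ (bv N) := by
  rw [Fintype.linearIndependent_iff]
  intro g hg i
  have h := congrArg (fun v : EuclideanSpace ℝ (Fin N) => v i) hg
  simpa [bv, Pi.single_apply] using h

theorem bv_injective (N : ℕ) : Function.Injective (bv N) := (bv_linearIndependent N).injective

/-- the abstract complex: sets of indices which support a face of a facet -/
def IsFace (u : Finset (Fin N)) : Prop := u.Nonempty ∧ ∃ F, ∀ i ∈ u, D.s F i ≠ 0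

open Classical in
/-- The complex on the vertices `bv N i`, `i : Fin N`, whose faces correspond to the nonempty subsets
of the (supports of the) facets. -/
noncomputable def cplx : Geometry.SimplicialComplex ℝ (EuclideanSpace ℝ (Fin N)) :=
  Geometry.SimplicialComplex.ofAffineIndependent
    { faces := {t | ∃ u : Finset (Fin N), D.IsFace u ∧ t = u.image (bv N)}
      isRelLowerSet_faces := by
        rintro t ⟨u, ⟨hu, F, hF⟩, rfl⟩
        refine ⟨hu.image _, ?_⟩
        intro t' ht' hne
        obtain ⟨u', hu', rfl⟩ := Finset.subset_image_iff.mp ht'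
        refine ⟨u', ⟨?_, F, fun i hi => hF i (hu' hi)⟩, rfl⟩
        exact Finset.image_nonempty.mp hne }
    (by
      refine (bv_linearIndependent N).affineIndependent.range.mono ?_
      intro x hx
      simp only [Set.mem_iUnion, Finset.mem_coe] at hx
      obtain ⟨_, ⟨u, _, rfl⟩, hx⟩ := hx
      rw [Finset.mem_image] at hx
      obtain ⟨i, _, rfl⟩ := hx
      exact Set.mem_range_self i)

theorem mem_faces (t : Finset (EuclideanSpace ℝ (Fin N))) :
    t ∈ D.cplx.faces ↔ ∃ u : Finset (Fin N), D.IsFace u ∧ t = u.image (bv N) := Iff.rfl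

theorem vertices_ncard : D.cplx.vertices.ncard = N := by
  classical
  have h : D.cplx.vertices = Set.range (bv N) := by
    ext x
    rw [Geometry.SimplicialComplex.mem_vertices, mem_faces]
    constructor
    · rintro ⟨u, ⟨hu, -⟩, h⟩
      obtain ⟨i, hi⟩ := hu
      have h1 : bv N i ∈ ({x} : Finset _) := by
        rw [h]; exact Finset.mem_image_of_mem _ hi
      rw [Finset.mem_singleton] at h1
      exact ⟨i, h1⟩
    · rintro ⟨i, rfl⟩
      obtain ⟨F, hF⟩ := D.hcov i
      refine ⟨{i}, ⟨Finset.singleton_nonempty i, F, ?_⟩, by simp⟩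
      intro j hj
      rw [Finset.mem_singleton] at hj
      rw [hj]; exact hF
  rw [h, ← Set.image_univ, Set.ncard_image_of_injective _ (bv_injective N), Set.ncard_univ]
  simp

theorem sum_bv_apply {N : ℕ} (w : Fin N → ℝ) (j : Fin N) : (∑ i, w i • bv N i) j = w j := by
  rw [WithLp.ofLp_sum]
  simp [bv, Pi.single_apply]

/-- the points of the complex in coordinates -/
theorem mem_space (y : EuclideanSpace ℝ (Fin N)) :
    y ∈ D.cplx.space ↔ (∀ i, 0 ≤ y i) ∧ ∑ i, y i = 1 ∧ ∃ F, ∀ i, D.s F i = 0 → y i = 0 := by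
  classical
  rw [Geometry.SimplicialComplex.mem_space_iff]
  constructor
  · rintro ⟨t, ht, hy⟩
    rw [mem_faces] at ht
    obtain ⟨u, ⟨hu, F, hF⟩, rfl⟩ := ht
    rw [Finset.mem_convexHull'] at hy
    obtain ⟨w, hw0, hw1, hw2⟩ := hy
    rw [Finset.sum_image (fun a _ b _ h => bv_injective N h)] at hw1 hw2
    have hyi : ∀ i, y i = if i ∈ u then w (bv N i) else 0 := by
      intro i
      rw [← hw2]
      have h1 : ∑ x ∈ u, w (bv N x) • bv N x =
          ∑ x, (if x ∈ u then w (bv N x) else 0) • bv N x := by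
        rw [← Finset.sum_filter_add_sum_filter_not Finset.univ (fun x => x ∈ u)]
        rw [Finset.sum_congr (s₁ := Finset.univ.filter (fun x => x ∉ u)) rfl
          (g := fun _ => 0) (fun x hx => by
            rw [Finset.mem_filter] at hx
            rw [if_neg hx.2, zero_smul])]
        rw [Finset.sum_const_zero, add_zero]
        rw [Finset.filter_mem_eq_inter, Finset.univ_inter]
        exact Finset.sum_congr rfl (fun x hx => by rw [if_pos hx])
      rw [h1, sum_bv_apply]
    refine ⟨fun i => ?_, ?_, F, fun i hi => ?_⟩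
    · rw [hyi]
      split_ifs with h
      · exact hw0 _ (Finset.mem_image_of_mem _ h)
      · exact le_refl _
    · simp only [hyi]
      rw [Finset.sum_ite_mem, Finset.univ_inter]
      exact hw1
    · rw [hyi, if_neg]
      intro h
      exact hF i h hi
  · rintro ⟨h0, h1, F, hF⟩
    let u : Finset (Fin N) := Finset.univ.filter (fun i => D.s F i ≠ 0)
    have hsum : ∑ i ∈ u, y i = 1 := by
      rw [← h1]
      apply Finset.sum_filter_of_ne
      intro i _ hi h
      exact hi (hF i h)
    have hne : u.Nonempty := by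
      by_contra hc
      rw [Finset.not_nonempty_iff_eq_empty] at hc
      rw [hc] at hsum
      simp at hsum
    refine ⟨u.image (bv N), (D.mem_faces _).mpr ⟨u, ⟨hne, F, fun i hi => ?_⟩, rfl⟩, ?_⟩
    · exact (Finset.mem_filter.mp hi).2
    · rw [Finset.mem_convexHull']
      by_cases hN : Nonempty (Fin N)
      · have hinv : ∀ i, Function.invFun (bv N) (bv N i) = i :=
          Function.leftInverse_invFun (bv_injective N)
        refine ⟨fun x => y (Function.invFun (bv N) x), ?_, ?_, ?_⟩
        · intro x hx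
          exact h0 _
        · rw [Finset.sum_image (fun a _ b _ h => bv_injective N h)]
          simp only [hinv]
          exact hsum
        · rw [Finset.sum_image (fun a _ b _ h => bv_injective N h)]
          simp only [hinv]
          have h2 : ∑ x ∈ u, y x • bv N x = ∑ x, y x • bv N x := by
            apply Finset.sum_filter_of_ne
            intro i _ hi h
            apply hi
            rw [hF i h, zero_smul]
          rw [h2]
          ext j
          rw [sum_bv_apply]
      · exfalso
        obtain ⟨i, _⟩ := hne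
        exact hN ⟨i⟩

/-! ### The relation between the sphere and the complex -/

/-- the point of `E` in the direction of `y`, seen from the facet `F` -/
noncomputable def z (F : ι) (y : EuclideanSpace ℝ (Fin N)) : E :=
  ∑ i, ((D.s F i : ℝ) * y i) • D.X i

theorem continuous_z (F : ι) : Continuous (D.z F) := by
  unfold z
  fun_prop

/-- `x` on the unit sphere lies over `y` in the complex, via the facet `F` -/
def Rel (F : ι) (x : E) (y : EuclideanSpace ℝ (Fin N)) : Prop :=
  (∀ i, D.s F i = 0 → y i = 0) ∧ ‖D.z F y‖ • x = D.z F y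

theorem z_ne_zero {F : ι} {y : EuclideanSpace ℝ (Fin N)} (hy : ∀ i, D.s F i = 0 → y i = 0)
    (h1 : ∑ i, y i = 1) : D.z F y ≠ 0 := by
  intro h
  have h2 := D.indep (F := F) (a := fun i => (D.s F i : ℝ) * y i)
    (fun i hi => by simp [hy i hi]) h
  have h3 : ∀ i, y i = 0 := by
    intro i
    by_cases hi : D.s F i = 0
    · exact hy i hi
    · have h4 := congrFun h2 i
      simp only [Pi.zero_apply] at h4
      have h5 := D.sq_one hi
      have : y i = ((D.s F i : ℝ) * D.s F i) * y i := by rw [h5, one_mul]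
      rw [this, mul_assoc, h4, mul_zero]
  simp [h3] at h1

theorem exists_rel [FiniteDimensional ℝ E] [Finite ι] [Nonempty ι] {x : E} (hx : ‖x‖ = 1) :
    ∃ y ∈ D.cplx.space, ∃ F, D.Rel F x y := by
  obtain ⟨F, a, ha, ha', hax⟩ := D.complete x
  have hS : 0 < ∑ i, (D.s F i : ℝ) * a i := by
    refine lt_of_le_of_ne (Finset.sum_nonneg (fun i _ => ha' i)) (fun h => ?_)
    have h1 := (Finset.sum_eq_zero_iff_of_nonneg (fun i _ => ha' i)).mp h.symm
    have h2 : ∀ i, a i = 0 := by
      intro i
      by_cases hi : D.s F i = 0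
      · exact ha i hi
      · have h3 := h1 i (Finset.mem_univ i)
        have h5 := D.sq_one hi
        have : a i = ((D.s F i : ℝ) * D.s F i) * a i := by rw [h5, one_mul]
        rw [this, mul_assoc, h3, mul_zero]
    have h3 : x = 0 := by
      rw [← hax]
      exact Finset.sum_eq_zero (fun i _ => by rw [h2 i, zero_smul])
    rw [h3, norm_zero] at hx
    exact zero_ne_one hx
  set S := ∑ i, (D.s F i : ℝ) * a i with hSdef
  let y : EuclideanSpace ℝ (Fin N) := WithLp.toLp 2 (fun i => (D.s F i : ℝ) * a i / S)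
  have hyi : ∀ i, y i = (D.s F i : ℝ) * a i / S := fun i => rfl
  have hsupp : ∀ i, D.s F i = 0 → y i = 0 := by
    intro i hi
    rw [hyi, hi]; simp
  have hz : D.z F y = (1 / S) • x := by
    unfold z
    rw [← hax, Finset.smul_sum]
    refine Finset.sum_congr rfl (fun i _ => ?_)
    rw [hyi, smul_smul]
    congr 1
    by_cases hi : D.s F i = 0
    · rw [ha i hi]; simp
    · have h5 := D.sq_one hi
      have : (D.s F i : ℝ) * ((D.s F i : ℝ) * a i / S) = ((D.s F i : ℝ) * D.s F i) * a i / S := by
        ring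
      rw [this, h5]; ring
  refine ⟨y, ?_, F, hsupp, ?_⟩
  · rw [mem_space]
    refine ⟨fun i => ?_, ?_, F, hsupp⟩
    · rw [hyi]; exact div_nonneg (ha' i) hS.le
    · simp only [hyi]
      rw [← Finset.sum_div, ← hSdef, div_self hS.ne']
  · rw [hz, norm_smul, hx, mul_one, Real.norm_eq_abs, abs_of_pos (by positivity)]

theorem rel_unique {F F' : ι} {x : E} {y y' : EuclideanSpace ℝ (Fin N)}
    (hy : y ∈ D.cplx.space) (hy' : y' ∈ D.cplx.space) (h : D.Rel F x y) (h' : D.Rel F' x y') :
    y = y' := by
  rw [mem_space] at hy hy'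
  have hz := D.z_ne_zero h.1 hy.2.1
  have hz' := D.z_ne_zero h'.1 hy'.2.1
  have hn : 0 < ‖D.z F y‖ := norm_pos_iff.mpr hz
  have hn' : 0 < ‖D.z F' y'‖ := norm_pos_iff.mpr hz'
  set r := ‖D.z F y‖
  set r' := ‖D.z F' y'‖
  have key : ∀ (G : ι) (w : EuclideanSpace ℝ (Fin N)) (i : Fin N), (∀ i, D.s G i = 0 → w i = 0) →
      (D.s G i : ℝ) * ((D.s G i : ℝ) * w i) = w i := by
    intro G w i hw
    by_cases hi : D.s G i = 0
    · rw [hw i hi]; simp
    · rw [← mul_assoc, D.sq_one hi, one_mul]
  have h1 := D.unique (F := F) (F' := F') (a := fun i => r⁻¹ * ((D.s F i : ℝ) * y i))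
    (b := fun i => r'⁻¹ * ((D.s F' i : ℝ) * y' i))
    (fun i hi => by simp [h.1 i hi]) (fun i hi => by simp [h'.1 i hi])
    (fun i => by
      have : (D.s F i : ℝ) * (r⁻¹ * ((D.s F i : ℝ) * y i)) = r⁻¹ * y i := by
        rw [mul_left_comm, key F y i h.1]
      rw [this]
      exact mul_nonneg (inv_nonneg.mpr hn.le) (hy.1 i))
    (fun i => by
      have : (D.s F' i : ℝ) * (r'⁻¹ * ((D.s F' i : ℝ) * y' i)) = r'⁻¹ * y' i := by
        rw [mul_left_comm, key F' y' i h'.1]
      rw [this]
      exact mul_nonneg (inv_nonneg.mpr hn'.le) (hy'.1 i))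
    (by
      have e1 : ∑ i, (r⁻¹ * ((D.s F i : ℝ) * y i)) • D.X i = r⁻¹ • D.z F y := by
        unfold z; rw [Finset.smul_sum]; simp only [smul_smul]
      have e2 : ∑ i, (r'⁻¹ * ((D.s F' i : ℝ) * y' i)) • D.X i = r'⁻¹ • D.z F' y' := by
        unfold z; rw [Finset.smul_sum]; simp only [smul_smul]
      rw [e1, e2, ← h.2, ← h'.2, smul_smul, smul_smul, inv_mul_cancel₀ hn.ne',
        inv_mul_cancel₀ hn'.ne'])
  have h2 : ∀ i, r⁻¹ * y i = r'⁻¹ * y' i := by
    intro i
    have h3 := congrFun h1 i
    simp only at h3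
    have h4 : |r⁻¹ * ((D.s F i : ℝ) * y i)| = r⁻¹ * y i := by
      rw [abs_mul, abs_mul, abs_of_pos (inv_pos.mpr hn), abs_of_nonneg (hy.1 i)]
      by_cases hi : D.s F i = 0
      · rw [h.1 i hi]; simp
      · have : |(D.s F i : ℝ)| = 1 := by
          rcases D.hs F i with h5 | h5 | h5
          · exact absurd h5 hi
          · rw [h5]; norm_num
          · rw [h5]; norm_num
        rw [this, one_mul]
    have h5 : |r'⁻¹ * ((D.s F' i : ℝ) * y' i)| = r'⁻¹ * y' i := by
      rw [abs_mul, abs_mul, abs_of_pos (inv_pos.mpr hn'), abs_of_nonneg (hy'.1 i)]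
      by_cases hi : D.s F' i = 0
      · rw [h'.1 i hi]; simp
      · have : |(D.s F' i : ℝ)| = 1 := by
          rcases D.hs F' i with h5 | h5 | h5
          · exact absurd h5 hi
          · rw [h5]; norm_num
          · rw [h5]; norm_num
        rw [this, one_mul]
    rw [← h4, ← h5, h3]
  have h3 : r⁻¹ = r'⁻¹ := by
    have h4 : ∑ i, r⁻¹ * y i = ∑ i, r'⁻¹ * y' i := Finset.sum_congr rfl (fun i _ => h2 i)
    rw [← Finset.mul_sum, ← Finset.mul_sum, hy.2.1, hy'.2.1, mul_one, mul_one] at h4
    exact h4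
  ext i
  have h4 := h2 i
  rw [← h3] at h4
  exact mul_left_cancel₀ (inv_pos.mpr hn).ne' h4

theorem rel_inj {F F' : ι} {x x' : E} {y : EuclideanSpace ℝ (Fin N)}
    (hy : y ∈ D.cplx.space) (h : D.Rel F x y) (h' : D.Rel F' x' y) : x = x' ∨ x = -x' := by
  rw [mem_space] at hy
  have hz := D.z_ne_zero h.1 hy.2.1
  have hn : 0 < ‖D.z F y‖ := norm_pos_iff.mpr hz
  -- pick an index in the support
  have hex : ∃ i, y i ≠ 0 := by
    by_contra hc
    push Not at hc
    have := hy.2.1
    simp [hc] at this
  obtain ⟨k, hk⟩ := hex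
  have hFk : D.s F k ≠ 0 := fun h0 => hk (h.1 k h0)
  have hF'k : D.s F' k ≠ 0 := fun h0 => hk (h'.1 k h0)
  have hsq : D.s F k * D.s F k = 1 := by
    rcases D.hs F k with h5 | h5 | h5
    · exact absurd h5 hFk
    · rw [h5]; norm_num
    · rw [h5]; norm_num
  have hrel : ∀ i, y i ≠ 0 → D.s F' i = (D.s F k * D.s F' k) * D.s F i := by
    intro i hi
    have hFi : D.s F i ≠ 0 := fun h0 => hi (h.1 i h0)
    have hF'i : D.s F' i ≠ 0 := fun h0 => hi (h'.1 i h0)
    have h1 := D.hrel F F' k i hFk hFi hF'k hF'i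
    have hsq' : D.s F' k * D.s F' k = 1 := by
      rcases D.hs F' k with h5 | h5 | h5
      · exact absurd h5 hF'k
      · rw [h5]; norm_num
      · rw [h5]; norm_num
    calc D.s F' i = (D.s F' k * D.s F' k) * D.s F' i := by rw [hsq', one_mul]
      _ = D.s F' k * (D.s F' k * D.s F' i) := by ring
      _ = D.s F' k * (D.s F k * D.s F i) := by rw [h1]
      _ = (D.s F k * D.s F' k) * D.s F i := by ring
  have hzz : D.z F' y = ((D.s F k * D.s F' k : ℤ) : ℝ) • D.z F y := by
    unfold z
    rw [Finset.smul_sum]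
    refine Finset.sum_congr rfl (fun i _ => ?_)
    rw [smul_smul]
    congr 1
    by_cases hi : y i = 0
    · rw [hi]; simp
    · rw [hrel i hi]; push_cast; ring
  have hcases : D.s F k * D.s F' k = 1 ∨ D.s F k * D.s F' k = -1 := by
    rcases D.hs F k with h5 | h5 | h5
    · exact absurd h5 hFk
    · rcases D.hs F' k with h6 | h6 | h6
      · exact absurd h6 hF'k
      · left; rw [h5, h6]; norm_num
      · right; rw [h5, h6]; norm_num
    · rcases D.hs F' k with h6 | h6 | h6
      · exact absurd h6 hF'k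
      · right; rw [h5, h6]; norm_num
      · left; rw [h5, h6]; norm_num
  rcases hcases with hc | hc
  · left
    rw [hc, Int.cast_one, one_smul] at hzz
    have h1 := h.2
    have h2 := h'.2
    rw [hzz] at h2
    have h3 : ‖D.z F y‖ • x = ‖D.z F y‖ • x' := by rw [h1, h2]
    exact smul_right_injective E hn.ne' h3
  · right
    rw [hc] at hzz
    push_cast at hzz
    rw [neg_smul, one_smul] at hzz
    have h1 := h.2
    have h2 := h'.2
    rw [hzz, norm_neg] at h2
    have h3 : ‖D.z F y‖ • x = ‖D.z F y‖ • (-x') := by rw [h1, smul_neg, h2, neg_neg]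
    exact smul_right_injective E hn.ne' h3

theorem rel_neg {F : ι} {x : E} {y : EuclideanSpace ℝ (Fin N)} (h : D.Rel F x y) :
    ∃ F', D.Rel F' (-x) y := by
  obtain ⟨F', hF'⟩ := D.hneg F
  have hz : D.z F' y = - D.z F y := by
    unfold z
    rw [← Finset.sum_neg_distrib]
    refine Finset.sum_congr rfl (fun i _ => ?_)
    rw [hF' i, ← neg_smul]
    congr 1
    push_cast
    ring
  refine ⟨F', fun i hi => h.1 i ?_, ?_⟩
  · rw [hF' i] at hi
    omega
  · rw [hz, norm_neg, smul_neg, h.2]

end FanData

end Pool.Agent.R770
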