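import Pool.Agent.R770.Sound2

/-!
# Fan data from a successful check
-/

set_option autoImplicit false

open Finset

namespace Pool.Agent.R770.Chk

/-- sign of the vertex `i` in the facet with mask `M` -/
def sM (M i : Nat) : ℤ := (if M.testBit i = true then 1 else 0) -
  (if M.testBit (i + 39) = true then 1 else 0)

/-- sign of a flag -/
def sg (b : Bool) : ℤ := if b = true then 1 else -1

/-- index type of the facets -/
def Idx (T : Tr) : Type := {x : (Nat × Nat) × Bool // T.In x.1.1 x.1.2}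

section main

variable {T : Tr} {C : Nat} {rows : List (Nat × Nat)} (V : Valid T C rows)

include V

theorem facet_row {M p i : Nat} (hin : T.In M p) (hi : i < 39) :
    (M.testBit i = true → M.testBit (i + 39) = false ∧ dotZ rows p i = cOf p) ∧
    (M.testBit i = false → M.testBit (i + 39) = true → dotZ rows p i = -cOf p) ∧
    (M.testBit i = false → M.testBit (i + 39) = false →
      dotZ rows p i < cOf p ∧ -(cOf p : ℤ) < dotZ rows p i) := by
  have hc := Tr.all_in V.all hin
  obtain ⟨-, -, -, -, h5, -, -⟩ := chk_facts hc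
  have h6 := (rowsOK_sound h5).1 i (by rw [V.len]; exact hi)
  have h7 := row_value V hi hc
  have e1 : (M % 549755813888).testBit i = M.testBit i := by
    have : (549755813888 : Nat) = 2 ^ 39 := by norm_num
    rw [this, Nat.testBit_mod_two_pow]
    simp [hi]
  have e2 : (M / 549755813888).testBit i = M.testBit (i + 39) := by
    have : (549755813888 : Nat) = 2 ^ 39 := by norm_num
    rw [this, Nat.testBit_div_two_pow]
  rw [e1, e2] at h6
  obtain ⟨h8, h9, h10⟩ := h6
  refine ⟨fun h => ?_, fun h h' => ?_, fun h h' => ?_⟩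
  · obtain ⟨h11, h12⟩ := h8 h
    refine ⟨h11, ?_⟩
    rw [← h7]
    have := congrArg (Nat.cast : ℕ → ℤ) h12
    push_cast at this ⊢
    linarith
  · have h12 := h9 h h'
    rw [← h7]
    have := congrArg (Nat.cast : ℕ → ℤ) h12
    push_cast at this ⊢
    linarith
  · obtain ⟨h11, h12⟩ := h10 h h'
    rw [← h7]
    have a1 : ((tval (rows[i]'(by rw [V.len]; exact hi)).1 (LOf p) +
      (rows[i]'(by rw [V.len]; exact hi)).2 : ℕ) : ℤ) <
      ((65536 + 16 * sumL (digits 65536 7 (LOf p)) + cOf p : ℕ) : ℤ) := by exact_mod_cast h11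
    have a2 : ((65536 + 16 * sumL (digits 65536 7 (LOf p)) : ℕ) : ℤ) <
      ((tval (rows[i]'(by rw [V.len]; exact hi)).1 (LOf p) +
      (rows[i]'(by rw [V.len]; exact hi)).2 + cOf p : ℕ) : ℤ) := by exact_mod_cast h12
    push_cast at a1 a2 ⊢
    constructor <;> linarith

theorem cOf_pos {M p : Nat} (hin : T.In M p) : 0 < cOf p :=
  (chk_facts (Tr.all_in V.all hin)).2.2.2.1

theorem sM_cases {M p i : Nat} (hin : T.In M p) (hi : i < 39) :
    (sM M i = 1 ∧ M.testBit i = true ∧ M.testBit (i + 39) = false ∧ dotZ rows p i = cOf p) ∨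
    (sM M i = -1 ∧ M.testBit i = false ∧ M.testBit (i + 39) = true ∧
      dotZ rows p i = -cOf p) ∨
    (sM M i = 0 ∧ M.testBit i = false ∧ M.testBit (i + 39) = false ∧ dotZ rows p i < cOf p ∧
      -(cOf p : ℤ) < dotZ rows p i) := by
  obtain ⟨h1, h2, h3⟩ := facet_row V hin hi
  unfold sM
  rcases ha : M.testBit i with _ | _
  · rcases hb : M.testBit (i + 39) with _ | _
    · right; right
      exact ⟨by simp, rfl, rfl, h3 ha hb⟩
    · right; left
      exact ⟨by simp, rfl, rfl, h2 ha hb⟩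
  · left
    obtain ⟨h4, h5⟩ := h1 ha
    rw [h4]
    exact ⟨by simp, rfl, rfl, h5⟩

theorem card_support {M p : Nat} (hin : T.In M p) :
    (Finset.univ.filter (fun i : Fin 39 => sM M i ≠ 0)).card = 7 := by
  have hc := Tr.all_in V.all hin
  obtain ⟨-, -, -, -, h5, -, -⟩ := chk_facts hc
  have h6 := (rowsOK_sound h5).2
  rw [V.len, zero_add] at h6
  rw [Finset.card_filter, Fin.sum_univ_eq_sum_range (fun i => if sM M i ≠ 0 then 1 else 0) 39,
    ← h6]
  refine Finset.sum_congr rfl (fun i hi => ?_)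
  rw [Finset.mem_range] at hi
  have e1 : (M % 549755813888).testBit i = M.testBit i := by
    have : (549755813888 : Nat) = 2 ^ 39 := by norm_num
    rw [this, Nat.testBit_mod_two_pow]
    simp [hi]
  have e2 : (M / 549755813888).testBit i = M.testBit (i + 39) := by
    have : (549755813888 : Nat) = 2 ^ 39 := by norm_num
    rw [this, Nat.testBit_div_two_pow]
  rw [e1, e2]
  rcases sM_cases V hin hi with ⟨h1, h2, h3, -⟩ | ⟨h1, h2, h3, -⟩ | ⟨h1, h2, h3, -⟩
  · rw [h1, h2, h3]; simp
  · rw [h1, h2, h3]; simp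
  · rw [h1, h2, h3]; simp

/-- the code of the vertex `i` in the facet `M` -/
theorem code_mem {M p i : Nat} (hin : T.In M p) (hi : i < 39) (h : sM M i ≠ 0) :
    ∃ v ∈ vsOf p, M.testBit v = true ∧ ((v = i ∧ sM M i = 1) ∨ (v = i + 39 ∧ sM M i = -1)) := by
  obtain ⟨hM, -⟩ := chk_facts (Tr.all_in V.all hin)
  rcases sM_cases V hin hi with ⟨h1, h2, h3, -⟩ | ⟨h1, h2, h3, -⟩ | ⟨h1, -⟩
  · refine ⟨i, ?_, h2, Or.inl ⟨rfl, h1⟩⟩
    rw [hM, testBit_orMask] at h2
    exact h2
  · refine ⟨i + 39, ?_, h3, Or.inr ⟨rfl, h1⟩⟩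
    rw [hM, testBit_orMask] at h3
    exact h3
  · exact absurd h1 h

theorem neighbour {M p i : Nat} (hin : T.In M p) (hi : i < 39) (h : sM M i ≠ 0) :
    ∃ M' p' b, T.In M' p' ∧ sg b * sM M' i ≠ sM M i ∧
      ∀ j < 39, j ≠ i → sM M j ≠ 0 → sg b * sM M' j = sM M j := by
  obtain ⟨v, hv, hMv, hcode⟩ := code_mem V hin hi h
  obtain ⟨hM, hlt, -, -, -, hnb, -⟩ := chk_facts (Tr.all_in V.all hin)
  have hv78 := hlt v hv
  rcases nbOK_sound hnb v hv with ⟨u, hu, hmem⟩ | ⟨u, hu, hmem⟩
  · obtain ⟨p', hin'⟩ := Tr.exists_of_mem hmem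
    have hbit : ∀ w, ((M ^^^ 2 ^ v) ||| 2 ^ u).testBit w = true ↔
        ((M.testBit w ^^ decide (v = w)) || decide (u = w)) = true := by
      intro w
      rw [Nat.testBit_or, Nat.testBit_xor, Nat.testBit_two_pow, Nat.testBit_two_pow]
    have hv' : ((M ^^^ 2 ^ v) ||| 2 ^ u).testBit v = false := by
      rw [Bool.eq_false_iff, Ne, hbit]
      simp [hMv, hu]
    have hw' : ∀ w, w ≠ v → M.testBit w = true → ((M ^^^ 2 ^ v) ||| 2 ^ u).testBit w = true := by
      intro w hw hMw
      rw [hbit]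
      simp [hMw, Ne.symm hw]
    refine ⟨_, p', true, hin', ?_, ?_⟩
    · unfold sg
      simp only [if_true, one_mul]
      rcases hcode with ⟨rfl, h1⟩ | ⟨rfl, h1⟩
      · rw [h1]
        rcases sM_cases V hin' hi with ⟨-, h2, -⟩ | ⟨h2, -⟩ | ⟨h2, -⟩
        · rw [hv'] at h2; exact absurd h2 (by simp)
        · rw [h2]; norm_num
        · rw [h2]; norm_num
      · rw [h1]
        rcases sM_cases V hin' hi with ⟨h2, -⟩ | ⟨-, -, h2, -⟩ | ⟨h2, -⟩
        · rw [h2]; norm_num
        · rw [hv'] at h2; exact absurd h2 (by simp)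
        · rw [h2]; norm_num
    · intro j hj hji hs
      unfold sg
      simp only [if_true, one_mul]
      rcases sM_cases V hin hj with ⟨h1, h2, h3, -⟩ | ⟨h1, h2, h3, -⟩ | ⟨h1, -⟩
      · have h4 := hw' j (by rcases hcode with ⟨rfl, -⟩ | ⟨rfl, -⟩ <;> omega) h2
        rw [h1]
        rcases sM_cases V hin' hj with ⟨h5, -⟩ | ⟨-, h5, -⟩ | ⟨-, h5, -⟩
        · exact h5
        · rw [h4] at h5; exact absurd h5 (by simp)
        · rw [h4] at h5; exact absurd h5 (by simp)
      · have h4 := hw' (j + 39) (by rcases hcode with ⟨rfl, -⟩ | ⟨rfl, -⟩ <;> omega) h3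
        rw [h1]
        rcases sM_cases V hin' hj with ⟨-, -, h5, -⟩ | ⟨h5, -⟩ | ⟨-, -, h5, -⟩
        · rw [h4] at h5; exact absurd h5 (by simp)
        · exact h5
        · rw [h4] at h5; exact absurd h5 (by simp)
      · exact absurd h1 hs
  · obtain ⟨p', hin'⟩ := Tr.exists_of_mem hmem
    set Mn := orMask ((vsOf p).map opp) with hMn
    have hMnbit : ∀ w, w ∈ vsOf p → Mn.testBit (opp w) = true := by
      intro w hw
      rw [hMn, testBit_orMask]
      exact List.mem_map_of_mem hw
    have hbit : ∀ w, ((Mn ^^^ 2 ^ (opp v)) ||| 2 ^ u).testBit w = true ↔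
        ((Mn.testBit w ^^ decide (opp v = w)) || decide (u = w)) = true := by
      intro w
      rw [Nat.testBit_or, Nat.testBit_xor, Nat.testBit_two_pow, Nat.testBit_two_pow]
    have hv' : ((Mn ^^^ 2 ^ (opp v)) ||| 2 ^ u).testBit (opp v) = false := by
      rw [Bool.eq_false_iff, Ne, hbit]
      simp [hMnbit v hv, hu]
    have hw' : ∀ w, w ≠ v → w < 78 → M.testBit w = true →
        ((Mn ^^^ 2 ^ (opp v)) ||| 2 ^ u).testBit (opp w) = true := by
      intro w hw hw78 hMw
      rw [hbit]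
      rw [hM, testBit_orMask] at hMw
      have : opp v ≠ opp w := by
        intro he
        apply hw
        rw [← opp_opp hw78, ← he, opp_opp hv78]
      simp [hMnbit w hMw, this]
    refine ⟨_, p', false, hin', ?_, ?_⟩
    · unfold sg
      simp only [Bool.false_eq_true, if_false]
      rcases hcode with ⟨rfl, h1⟩ | ⟨rfl, h1⟩
      · rw [h1]
        rw [opp_of_lt hi] at hv' hin' ⊢
        rcases sM_cases V hin' hi with ⟨h2, -⟩ | ⟨-, -, h2, -⟩ | ⟨h2, -⟩
        · rw [h2]; norm_num
        · rw [hv'] at h2; exact absurd h2 (by simp)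
        · rw [h2]; norm_num
      · rw [h1]
        have ho : opp (i + 39) = i := by rw [opp_of_ge (by omega)]; omega
        rw [ho] at hv' hin' ⊢
        rcases sM_cases V hin' hi with ⟨-, h2, -⟩ | ⟨h2, -⟩ | ⟨h2, -⟩
        · rw [hv'] at h2; exact absurd h2 (by simp)
        · rw [h2]; norm_num
        · rw [h2]; norm_num
    · intro j hj hji hs
      unfold sg
      simp only [Bool.false_eq_true, if_false]
      rcases sM_cases V hin hj with ⟨h1, h2, h3, -⟩ | ⟨h1, h2, h3, -⟩ | ⟨h1, -⟩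
      · have h4 := hw' j (by rcases hcode with ⟨rfl, -⟩ | ⟨rfl, -⟩ <;> omega) (by omega) h2
        rw [opp_of_lt hj] at h4
        rw [h1]
        rcases sM_cases V hin' hj with ⟨-, -, h5, -⟩ | ⟨h5, -⟩ | ⟨-, -, h5, -⟩
        · rw [h4] at h5; exact absurd h5 (by simp)
        · rw [h5]; norm_num
        · rw [h4] at h5; exact absurd h5 (by simp)
      · have h4 := hw' (j + 39) (by rcases hcode with ⟨rfl, -⟩ | ⟨rfl, -⟩ <;> omega) (by omega) h3
        have ho : opp (j + 39) = j := by rw [opp_of_ge (by omega)]; omega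
        rw [ho] at h4
        rw [h1]
        rcases sM_cases V hin' hj with ⟨h5, -⟩ | ⟨-, h5, -⟩ | ⟨-, h5, -⟩
        · rw [h5]; norm_num
        · rw [h4] at h5; exact absurd h5 (by simp)
        · rw [h4] at h5; exact absurd h5 (by simp)
      · exact absurd h1 hs

/-- compatibility of two vertices of a facet -/
theorem compat {M p v w : Nat} (hin : T.In M p) (hv : v ∈ vsOf p) (hw : M.testBit w = true) :
    C.testBit (78 * v + w) = true :=
  compOK_sound (chk_facts (Tr.all_in V.all hin)).2.2.2.2.2.2 v hv w hw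

theorem rel_sign {M p M' p' i j : Nat} (hin : T.In M p) (hin' : T.In M' p') (hi : i < 39)
    (hj : j < 39) (h1 : sM M i ≠ 0) (h2 : sM M j ≠ 0) (h3 : sM M' i ≠ 0) (h4 : sM M' j ≠ 0) :
    sM M i * sM M j = sM M' i * sM M' j := by
  obtain ⟨v, hv, hMv, hcv⟩ := code_mem V hin hi h1
  obtain ⟨w, hw, hMw, hcw⟩ := code_mem V hin hj h2
  obtain ⟨v', hv', hMv', hcv'⟩ := code_mem V hin' hi h3
  obtain ⟨w', hw', hMw', hcw'⟩ := code_mem V hin' hj h4
  have k1 := compat V hin hv hMw
  have k2 := compat V hin' hv' hMw'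
  have hi1 : opp i = i + 39 := opp_of_lt hi
  have hj1 : opp j = j + 39 := opp_of_lt hj
  have hi2 : opp (i + 39) = i := by rw [opp_of_ge (by omega)]; omega
  have hj2 : opp (j + 39) = j := by rw [opp_of_ge (by omega)]; omega
  rcases hcv with ⟨rfl, a1⟩ | ⟨rfl, a1⟩ <;> rcases hcw with ⟨rfl, a2⟩ | ⟨rfl, a2⟩ <;>
    rcases hcv' with ⟨rfl, a3⟩ | ⟨rfl, a3⟩ <;> rcases hcw' with ⟨rfl, a4⟩ | ⟨rfl, a4⟩ <;>
    rw [a1, a2, a3, a4] <;> first
    | (norm_num; done)
    | (exfalso
       first
       | (have k3 := V.comp1 _ (by omega) _ (by omega) k1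
          simp only [hi1, hj1, hi2, hj2] at k3
          rw [k2] at k3
          exact absurd k3 (by simp))
       | (rw [V.comp2 _ (by omega) _ (by omega)] at k1
          simp only [hi1, hj1, hi2, hj2] at k1
          have k3 := V.comp1 _ (by omega) _ (by omega) k1
          simp only [hi1, hj1, hi2, hj2] at k3
          rw [k2] at k3
          exact absurd k3 (by simp)))

/-- the supporting functional of a facet -/
noncomputable def functional (p : Nat) : EuclideanSpace ℝ (Fin 7) →ₗ[ℝ] ℝ where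
  toFun x := (∑ j : Fin 7, ((lnat p j : ℝ) - 128) * x j) / cOf p
  map_add' x y := by
    simp only [PiLp.add_apply, mul_add, Finset.sum_add_distrib, add_div]
  map_smul' r x := by
    simp only [PiLp.smul_apply, smul_eq_mul, RingHom.id_apply]
    rw [← mul_div_assoc, Finset.mul_sum]
    congr 1
    exact Finset.sum_congr rfl (fun j _ => by ring)

/-- the vertices -/
noncomputable def vert (rows : List (Nat × Nat)) (i : Fin 39) : EuclideanSpace ℝ (Fin 7) :=
  WithLp.toLp 2 (fun j => (xnat rows i j : ℝ) - 16)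

omit V in
theorem functional_vert (p : Nat) (i : Fin 39) :
    functional p (vert rows i) = (dotZ rows p i : ℝ) / cOf p := by
  unfold functional vert dotZ
  simp

/-- the fan data -/
noncomputable def fan : FanData (EuclideanSpace ℝ (Fin 7)) 39 (Idx T) where
  X := vert rows
  s F i := sg F.1.2 * sM F.1.1.1 i
  l F := (sg F.1.2 : ℝ) • functional F.1.1.2
  hs := by
    rintro ⟨⟨⟨M, p⟩, b⟩, hin⟩ i
    have hin : T.In M p := hin
    simp only
    have hb : sg b = 1 ∨ sg b = -1 := by cases b <;> simp [sg]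
    rcases sM_cases V hin i.2 with ⟨h1, -⟩ | ⟨h1, -⟩ | ⟨h1, -⟩ <;> rcases hb with hb | hb <;>
      rw [h1, hb] <;> norm_num
  hl1 := by
    rintro ⟨⟨⟨M, p⟩, b⟩, hin⟩ i h
    have hin : T.In M p := hin
    simp only at h ⊢
    have hc := cOf_pos V hin
    have hc' : (cOf p : ℝ) ≠ 0 := by exact_mod_cast hc.ne'
    rw [LinearMap.smul_apply, functional_vert, smul_eq_mul]
    push_cast
    congr 1
    rcases sM_cases V hin i.2 with ⟨h1, -, -, h2⟩ | ⟨h1, -, -, h2⟩ | ⟨h1, -⟩
    · rw [h1, h2]; push_cast; rw [div_self hc']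
    · rw [h1, h2]; push_cast; rw [neg_div, div_self hc']
    · rw [h1] at h; simp at h
  hl2 := by
    rintro ⟨⟨⟨M, p⟩, b⟩, hin⟩ i h
    have hin : T.In M p := hin
    simp only at h ⊢
    have hc := cOf_pos V hin
    have hc' : (0 : ℝ) < cOf p := by exact_mod_cast hc
    have hb : sg b = 1 ∨ sg b = -1 := by cases b <;> simp [sg]
    have hb0 : sg b ≠ 0 := by rcases hb with hb | hb <;> rw [hb] <;> norm_num
    have h0 : sM M i = 0 := by
      rcases mul_eq_zero.mp h with h1 | h1
      · exact absurd h1 hb0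
      · exact h1
    rw [LinearMap.smul_apply, functional_vert, smul_eq_mul, abs_mul]
    have hb1 : |(sg b : ℝ)| = 1 := by rcases hb with hb | hb <;> rw [hb] <;> norm_num
    rw [hb1, one_mul, abs_div, abs_of_pos hc', div_lt_one hc', abs_lt]
    rcases sM_cases V hin i.2 with ⟨h1, -⟩ | ⟨h1, -⟩ | ⟨-, -, -, h2, h3⟩
    · rw [h0] at h1; norm_num at h1
    · rw [h0] at h1; norm_num at h1
    · constructor
      · exact_mod_cast h3
      · exact_mod_cast h2
  hnb := by
    rintro ⟨⟨⟨M, p⟩, b⟩, hin⟩ i h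
    have hin : T.In M p := hin
    simp only at h
    have hb : sg b = 1 ∨ sg b = -1 := by cases b <;> simp [sg]
    have h0 : sM M i ≠ 0 := by
      intro h0; rw [h0, mul_zero] at h; exact h rfl
    obtain ⟨M', p', b', hin', h1, h2⟩ := neighbour V hin i.2 h0
    refine ⟨⟨((M', p'), b == b'), hin'⟩, ?_, ?_⟩
    · simp only
      have h3 : sg (b == b') = sg b * sg b' := by cases b <;> cases b' <;> simp [sg]
      rw [h3]
      intro he
      apply h1
      rw [mul_assoc] at he
      rcases hb with hb | hb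
      · rw [hb, one_mul, one_mul] at he; exact he
      · rw [hb] at he; linarith
    · intro j hj hs
      simp only at hs ⊢
      have h3 : sg (b == b') = sg b * sg b' := by cases b <;> cases b' <;> simp [sg]
      have hj0 : sM M j ≠ 0 := by
        intro h0; rw [h0, mul_zero] at hs; exact hs rfl
      rw [h3, mul_assoc, h2 j j.2 (fun he => hj (Fin.ext he)) hj0]
  hcard := by
    rintro ⟨⟨⟨M, p⟩, b⟩, hin⟩
    have hin : T.In M p := hin
    have hb : sg b = 1 ∨ sg b = -1 := by cases b <;> simp [sg]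
    have hb0 : sg b ≠ 0 := by rcases hb with hb | hb <;> rw [hb] <;> norm_num
    rw [finrank_euclideanSpace, Fintype.card_fin, ← card_support V hin]
    congr 1
    ext i
    simp [hb0]
  hrel := by
    rintro ⟨⟨⟨M, p⟩, b⟩, hin⟩ ⟨⟨⟨M', p'⟩, b'⟩, hin'⟩ i j h1 h2 h3 h4
    have hin : T.In M p := hin
    have hin' : T.In M' p' := hin'
    simp only at h1 h2 h3 h4 ⊢
    have hb : sg b * sg b = 1 := by cases b <;> simp [sg]
    have hb' : sg b' * sg b' = 1 := by cases b' <;> simp [sg]
    have e1 : sM M i ≠ 0 := by intro h0; rw [h0, mul_zero] at h1; exact h1 rfl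
    have e2 : sM M j ≠ 0 := by intro h0; rw [h0, mul_zero] at h2; exact h2 rfl
    have e3 : sM M' i ≠ 0 := by intro h0; rw [h0, mul_zero] at h3; exact h3 rfl
    have e4 : sM M' j ≠ 0 := by intro h0; rw [h0, mul_zero] at h4; exact h4 rfl
    have h5 := rel_sign V hin hin' i.2 j.2 e1 e2 e3 e4
    calc sg b * sM M i * (sg b * sM M j) = (sg b * sg b) * (sM M i * sM M j) := by ring
      _ = (sg b' * sg b') * (sM M' i * sM M' j) := by rw [hb, hb', h5]
      _ = sg b' * sM M' i * (sg b' * sM M' j) := by ring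
  hcov := by
    intro i
    have h := V.cov i i.2
    rw [Bool.or_eq_true] at h
    have key : ∃ M p, T.In M p ∧ (M.testBit i = true ∨ M.testBit (i + 39) = true) := by
      rcases h with h | h
      · obtain ⟨M, p, h1, h2⟩ := Tr.of_orAll h
        exact ⟨M, p, h1, Or.inl h2⟩
      · obtain ⟨M, p, h1, h2⟩ := Tr.of_orAll h
        exact ⟨M, p, h1, Or.inr h2⟩
    obtain ⟨M, p, hin, h1⟩ := key
    refine ⟨⟨((M, p), true), hin⟩, ?_⟩
    simp only [sg, if_true, one_mul]
    rcases sM_cases V hin i.2 with ⟨h2, -⟩ | ⟨h2, -⟩ | ⟨-, h2, h3, -⟩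
    · rw [h2]; norm_num
    · rw [h2]; norm_num
    · rcases h1 with h1 | h1
      · rw [h1] at h2; exact absurd h2 (by simp)
      · rw [h1] at h3; exact absurd h3 (by simp)
  hneg := by
    rintro ⟨⟨⟨M, p⟩, b⟩, hin⟩
    refine ⟨⟨((M, p), !b), hin⟩, fun i => ?_⟩
    simp only
    have : sg (!b) = - sg b := by cases b <;> simp [sg]
    rw [this, neg_mul]

theorem exists_triangulation :
    ∃ K : Geometry.SimplicialComplex ℝ (EuclideanSpace ℝ (Fin 39)),
      K.vertices.ncard = 39 ∧ Nonempty (K.space ≃ₜ Quot (antipodal 7)) := by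
  have hfin : Finite (Idx T) := by
    have h1 : ({x : (Nat × Nat) × Bool | T.In x.1.1 x.1.2}).Finite := by
      have h2 := (Tr.finite_in T).prod (Set.finite_univ (α := Bool))
      refine h2.subset ?_
      rintro ⟨x, b⟩ hx
      exact ⟨hx, trivial⟩
    exact h1
  have hne : Nonempty (Idx T) := by
    obtain ⟨F, _⟩ := (fan V).hcov 0
    exact ⟨F⟩
  exact ⟨(fan V).cplx, (fan V).vertices_ncard, (fan V).homeo⟩

end main

end Pool.Agent.R770.Chk
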