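import Pool.Agent.R770.Chk
import Pool.Agent.R770.FanHomeo

/-!
# Soundness of the checker
-/

set_option autoImplicit false

open Finset

namespace Pool.Agent.R770.Chk

/-! ### Trees -/

theorem Tr.exists_of_mem {M : Nat} : ∀ {t : Tr}, t.mem M = true → ∃ q, t.In M q := by
  intro t
  induction t with
  | nil => intro h; exact absurd h (by simp [Tr.mem])
  | node k q l r ihl ihr =>
    intro h
    rw [Tr.mem] at h
    by_cases h1 : Nat.beq M k = true
    · exact ⟨q, Or.inl ⟨Nat.eq_of_beq_eq_true h1, rfl⟩⟩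
    · rw [Bool.not_eq_true] at h1
      rw [h1, cond_false] at h
      by_cases h2 : Nat.blt M k = true
      · rw [h2, cond_true] at h
        obtain ⟨q', hq⟩ := ihl h
        exact ⟨q', Or.inr (Or.inl hq)⟩
      · rw [Bool.not_eq_true] at h2
        rw [h2, cond_false] at h
        obtain ⟨q', hq⟩ := ihr h
        exact ⟨q', Or.inr (Or.inr hq)⟩

theorem Tr.all_in {p : Nat → Nat → Bool} {k q : Nat} : ∀ {t : Tr}, t.all p = true → t.In k q →
    p k q = true := by
  intro t
  induction t with
  | nil => intro _ h; exact h.elim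
  | node k' q' l r ihl ihr =>
    intro h hin
    rw [Tr.all, Bool.and_eq_true, Bool.and_eq_true] at h
    rcases hin with ⟨rfl, rfl⟩ | hin | hin
    · exact h.1
    · exact ihl h.2.1 hin
    · exact ihr h.2.2 hin

theorem Tr.all_node {p : Nat → Nat → Bool} {k q : Nat} {l r : Tr} (h : p k q = true)
    (hl : l.all p = true) (hr : r.all p = true) : (Tr.node k q l r).all p = true := by
  rw [Tr.all, h, hl, hr]; rfl

theorem Tr.finite_in : ∀ t : Tr, {x : Nat × Nat | t.In x.1 x.2}.Finite := by
  intro t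
  induction t with
  | nil =>
    refine Set.Finite.subset Set.finite_empty ?_
    intro x hx; exact hx.elim
  | node k q l r ihl ihr =>
    refine Set.Finite.subset ((Set.finite_singleton (k, q)).union (ihl.union ihr)) ?_
    rintro ⟨a, b⟩ (⟨rfl, rfl⟩ | h | h)
    · exact Or.inl rfl
    · exact Or.inr (Or.inl h)
    · exact Or.inr (Or.inr h)

/-- the union of all masks -/
def Tr.orAll : Tr → Nat
  | .nil => 0
  | .node k _ l r => Nat.lor k (Nat.lor l.orAll r.orAll)

theorem Tr.of_orAll {j : Nat} : ∀ {t : Tr}, (t.orAll).testBit j = true →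
    ∃ k q, t.In k q ∧ k.testBit j = true := by
  intro t
  induction t with
  | nil => intro h; simp [Tr.orAll] at h
  | node k q l r ihl ihr =>
    intro h
    rw [Tr.orAll] at h
    change (k ||| (l.orAll ||| r.orAll)).testBit j = true at h
    rw [Nat.testBit_or, Nat.testBit_or, Bool.or_eq_true, Bool.or_eq_true] at h
    rcases h with h | h | h
    · exact ⟨k, q, Or.inl ⟨rfl, rfl⟩, h⟩
    · obtain ⟨k', q', h1, h2⟩ := ihl h
      exact ⟨k', q', Or.inr (Or.inl h1), h2⟩
    · obtain ⟨k', q', h1, h2⟩ := ihr h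
      exact ⟨k', q', Or.inr (Or.inr h1), h2⟩

/-! ### Masks -/

theorem testBit_orMask (vs : List Nat) (j : Nat) :
    (orMask vs).testBit j = true ↔ j ∈ vs := by
  induction vs with
  | nil => simp [orMask]
  | cons v vs ih =>
    rw [orMask]
    change ((2 ^ v ||| orMask vs).testBit j = true) ↔ _
    rw [Nat.testBit_or, Bool.or_eq_true, ih, Nat.testBit_two_pow, List.mem_cons,
      decide_eq_true_eq]
    constructor
    · rintro (h | h)
      · exact Or.inl h.symm
      · exact Or.inr h
    · rintro (h | h)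
      · exact Or.inl h.symm
      · exact Or.inr h

theorem opp_lt {v : Nat} (h : v < 78) : opp v < 78 := by
  unfold opp
  rcases hb : Nat.blt v 39 with _ | _
  · rw [cond_false]
    omega
  · rw [cond_true]
    rw [Nat.blt_eq] at hb
    omega

theorem opp_of_lt {v : Nat} (h : v < 39) : opp v = v + 39 := by
  unfold opp
  rw [show Nat.blt v 39 = true from by rw [Nat.blt_eq]; exact h, cond_true]

theorem opp_of_ge {v : Nat} (h : 39 ≤ v) : opp v = v - 39 := by
  unfold opp
  have : Nat.blt v 39 = false := by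
    rw [Bool.eq_false_iff, Ne, Nat.blt_eq]
    omega
  rw [this, cond_false]

theorem opp_opp {v : Nat} (h : v < 78) : opp (opp v) = v := by
  by_cases h1 : v < 39
  · rw [opp_of_lt h1, opp_of_ge (v := v + 39) (by omega)]; omega
  · rw [opp_of_ge (v := v) (by omega), opp_of_lt (v := v - 39) (by omega)]; omega

theorem allLt_iff {b : Nat} {vs : List Nat} : allLt b vs = true ↔ ∀ v ∈ vs, v < b := by
  induction vs with
  | nil => simp [allLt]
  | cons v vs ih =>
    rw [allLt, Bool.and_eq_true, Nat.blt_eq, ih]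
    simp

theorem length_digits (b n x : Nat) : (digits b n x).length = n := by
  induction n generalizing x with
  | zero => rfl
  | succ n ih => rw [digits, List.length_cons, ih]

theorem getElem_digits (b n x k : Nat) (hk : k < n) :
    (digits b n x)[k]'(by rw [length_digits]; exact hk) = x / b ^ k % b := by
  induction n generalizing x k with
  | zero => omega
  | succ n ih =>
    cases k with
    | zero => simp [digits]
    | succ k =>
      simp only [digits, List.getElem_cons_succ]
      rw [ih _ _ (by omega), Nat.div_div_eq_div_mul, pow_succ, mul_comm b]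

/-! ### Rows -/

/-- the value computed for a row -/
def tval (P L : Nat) : Nat := P * L / 79228162514264337593543950336 % 65536

theorem rowsOK_sound {L H c : Nat} : ∀ {rs : List (Nat × Nat)} {a b cnt : Nat},
    rowsOK L H c rs a b cnt = true →
    (∀ k (hk : k < rs.length),
      (a.testBit k = true → b.testBit k = false ∧ tval rs[k].1 L + rs[k].2 = H + c) ∧
      (a.testBit k = false → b.testBit k = true → tval rs[k].1 L + rs[k].2 + c = H) ∧
      (a.testBit k = false → b.testBit k = false → tval rs[k].1 L + rs[k].2 < H + c ∧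
        H < tval rs[k].1 L + rs[k].2 + c)) ∧
    cnt + ∑ k ∈ Finset.range rs.length, (if (a.testBit k || b.testBit k) = true then 1 else 0) = 7 := by
  intro rs
  induction rs with
  | nil =>
    intro a b cnt h
    rw [rowsOK] at h
    refine ⟨fun k hk => absurd hk (by simp), ?_⟩
    simp only [List.length_nil, Finset.range_zero, Finset.sum_empty, add_zero]
    exact Nat.eq_of_beq_eq_true h
  | cons r rs ih =>
    obtain ⟨P, E⟩ := r
    intro a b cnt h
    rw [rowsOK] at h
    have ha0 : a.testBit 0 = Nat.beq (a % 2) 1 := by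
      rw [Nat.testBit_zero]
      rcases Nat.mod_two_eq_zero_or_one a with h1 | h1 <;> rw [h1] <;> rfl
    have hb0 : b.testBit 0 = Nat.beq (b % 2) 1 := by
      rw [Nat.testBit_zero]
      rcases Nat.mod_two_eq_zero_or_one b with h1 | h1 <;> rw [h1] <;> rfl
    have step : ∀ {cnt' : Nat}, rowsOK L H c rs (a / 2) (b / 2) cnt' = true →
        cnt' = cnt + (if (a.testBit 0 || b.testBit 0) = true then 1 else 0) →
        ((a.testBit 0 = true → b.testBit 0 = false ∧ tval P L + E = H + c) ∧
        (a.testBit 0 = false → b.testBit 0 = true → tval P L + E + c = H) ∧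
        (a.testBit 0 = false → b.testBit 0 = false → tval P L + E < H + c ∧
          H < tval P L + E + c)) →
        (∀ k (hk : k < ((P, E) :: rs).length),
          (a.testBit k = true → b.testBit k = false ∧
            tval ((P, E) :: rs)[k].1 L + ((P, E) :: rs)[k].2 = H + c) ∧
          (a.testBit k = false → b.testBit k = true →
            tval ((P, E) :: rs)[k].1 L + ((P, E) :: rs)[k].2 + c = H) ∧
          (a.testBit k = false → b.testBit k = false →
            tval ((P, E) :: rs)[k].1 L + ((P, E) :: rs)[k].2 < H + c ∧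
            H < tval ((P, E) :: rs)[k].1 L + ((P, E) :: rs)[k].2 + c)) ∧
        cnt + ∑ k ∈ Finset.range ((P, E) :: rs).length,
          (if (a.testBit k || b.testBit k) = true then 1 else 0) = 7 := by
      intro cnt' h1 h2 h3
      obtain ⟨h4, h5⟩ := ih h1
      refine ⟨?_, ?_⟩
      · intro k hk
        cases k with
        | zero => exact h3
        | succ k =>
          have hk' : k < rs.length := by simpa using hk
          have := h4 k hk'
          rw [Nat.testBit_succ, Nat.testBit_succ]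
          exact this
      · rw [List.length_cons, Finset.sum_range_succ']
        have h6 : ∀ k, (if (a.testBit (k + 1) || b.testBit (k + 1)) = true then 1 else 0) =
            (if ((a / 2).testBit k || (b / 2).testBit k) = true then 1 else 0) := by
          intro k
          rw [Nat.testBit_succ, Nat.testBit_succ]
        simp only [h6]
        rw [h2] at h5
        omega
    rcases h1 : Nat.beq (a % 2) 1 with _ | _
    · rw [h1, cond_false] at h
      rw [h1] at ha0
      rcases h2 : Nat.beq (b % 2) 1 with _ | _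
      · rw [h2, cond_false, Bool.and_eq_true, Bool.and_eq_true, Nat.blt_eq, Nat.blt_eq] at h
        rw [h2] at hb0
        refine step h.2 (by rw [ha0, hb0]; simp) ⟨?_, ?_, ?_⟩
        · intro h3; rw [ha0] at h3; exact absurd h3 (by simp)
        · intro _ h3; rw [hb0] at h3; exact absurd h3 (by simp)
        · intro _ _; exact h.1
      · rw [h2, cond_true, Bool.and_eq_true] at h
        rw [h2] at hb0
        refine step h.2 (by rw [ha0, hb0]; simp) ⟨?_, ?_, ?_⟩
        · intro h3; rw [ha0] at h3; exact absurd h3 (by simp)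
        · intro _ _; exact Nat.eq_of_beq_eq_true h.1
        · intro _ h3; rw [hb0] at h3; exact absurd h3 (by simp)
    · rw [h1, cond_true, Bool.and_eq_true, Bool.and_eq_true] at h
      rw [h1] at ha0
      refine step h.2 (by rw [ha0]; simp) ⟨?_, ?_, ?_⟩
      · intro _
        refine ⟨?_, Nat.eq_of_beq_eq_true h.1.2⟩
        have h3 := Nat.eq_of_beq_eq_true h.1.1
        rw [Nat.testBit_zero, h3]; rfl
      · intro h3; rw [ha0] at h3; exact absurd h3 (by simp)
      · intro h3; rw [ha0] at h3; exact absurd h3 (by simp)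

/-! ### The scalar product -/

theorem tval_eq {x0 x1 x2 x3 x4 x5 x6 l0 l1 l2 l3 l4 l5 l6 : Nat}
    (hx0 : x0 < 32) (hx1 : x1 < 32) (hx2 : x2 < 32) (hx3 : x3 < 32) (hx4 : x4 < 32)
    (hx5 : x5 < 32) (hx6 : x6 < 32) (hl0 : l0 < 256) (hl1 : l1 < 256) (hl2 : l2 < 256)
    (hl3 : l3 < 256) (hl4 : l4 < 256) (hl5 : l5 < 256) (hl6 : l6 < 256) :
    tval (x0 + x1 * 65536 + x2 * 65536 ^ 2 + x3 * 65536 ^ 3 + x4 * 65536 ^ 4 + x5 * 65536 ^ 5 +
        x6 * 65536 ^ 6)
      (l0 * 65536 ^ 6 + l1 * 65536 ^ 5 + l2 * 65536 ^ 4 + l3 * 65536 ^ 3 + l4 * 65536 ^ 2 +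
        l5 * 65536 + l6) =
      x0 * l0 + x1 * l1 + x2 * l2 + x3 * l3 + x4 * l4 + x5 * l5 + x6 * l6 := by
  have hb : ∀ {x l : Nat}, x < 32 → l < 256 → x * l < 8192 := by
    intro x l hx hl
    calc x * l ≤ 31 * 255 := Nat.mul_le_mul (by omega) (by omega)
      _ < 8192 := by norm_num
  set B := 65536 with hB
  have hexp : (x0 + x1 * B + x2 * B ^ 2 + x3 * B ^ 3 + x4 * B ^ 4 + x5 * B ^ 5 + x6 * B ^ 6) *
      (l0 * B ^ 6 + l1 * B ^ 5 + l2 * B ^ 4 + l3 * B ^ 3 + l4 * B ^ 2 + l5 * B + l6) =
      (x0 * l6) + (x0 * l5 + x1 * l6) * B + (x0 * l4 + x1 * l5 + x2 * l6) * B ^ 2 +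
      (x0 * l3 + x1 * l4 + x2 * l5 + x3 * l6) * B ^ 3 +
      (x0 * l2 + x1 * l3 + x2 * l4 + x3 * l5 + x4 * l6) * B ^ 4 +
      (x0 * l1 + x1 * l2 + x2 * l3 + x3 * l4 + x4 * l5 + x5 * l6) * B ^ 5 +
      ((x0 * l0 + x1 * l1 + x2 * l2 + x3 * l3 + x4 * l4 + x5 * l5 + x6 * l6) +
      B * ((x1 * l0 + x2 * l1 + x3 * l2 + x4 * l3 + x5 * l4 + x6 * l5) +
      (x2 * l0 + x3 * l1 + x4 * l2 + x5 * l3 + x6 * l4) * B +
      (x3 * l0 + x4 * l1 + x5 * l2 + x6 * l3) * B ^ 2 + (x4 * l0 + x5 * l1 + x6 * l2) * B ^ 3 +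
      (x5 * l0 + x6 * l1) * B ^ 4 + (x6 * l0) * B ^ 5)) * B ^ 6 := by ring
  unfold tval
  rw [hexp]
  have e6 : 79228162514264337593543950336 = B ^ 6 := by rw [hB]; norm_num
  rw [e6, Nat.add_mul_div_right _ _ (by rw [hB]; norm_num)]
  have h0 : (x0 * l6) + (x0 * l5 + x1 * l6) * B + (x0 * l4 + x1 * l5 + x2 * l6) * B ^ 2 +
      (x0 * l3 + x1 * l4 + x2 * l5 + x3 * l6) * B ^ 3 +
      (x0 * l2 + x1 * l3 + x2 * l4 + x3 * l5 + x4 * l6) * B ^ 4 +
      (x0 * l1 + x1 * l2 + x2 * l3 + x3 * l4 + x4 * l5 + x5 * l6) * B ^ 5 < B ^ 6 := by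
    have a1 := hb hx0 hl6
    have a2 := hb hx0 hl5
    have a3 := hb hx1 hl6
    have a4 := hb hx0 hl4
    have a5 := hb hx1 hl5
    have a6 := hb hx2 hl6
    have a7 := hb hx0 hl3
    have a8 := hb hx1 hl4
    have a9 := hb hx2 hl5
    have a10 := hb hx3 hl6
    have a11 := hb hx0 hl2
    have a12 := hb hx1 hl3
    have a13 := hb hx2 hl4
    have a14 := hb hx3 hl5
    have a15 := hb hx4 hl6
    have a16 := hb hx0 hl1
    have a17 := hb hx1 hl2
    have a18 := hb hx2 hl3
    have a19 := hb hx3 hl4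
    have a20 := hb hx4 hl5
    have a21 := hb hx5 hl6
    rw [hB]
    norm_num
    omega
  rw [Nat.div_eq_of_lt h0, zero_add, Nat.add_mul_mod_self_left]
  apply Nat.mod_eq_of_lt
  have a1 := hb hx0 hl0
  have a2 := hb hx1 hl1
  have a3 := hb hx2 hl2
  have a4 := hb hx3 hl3
  have a5 := hb hx4 hl4
  have a6 := hb hx5 hl5
  have a7 := hb hx6 hl6
  rw [hB]
  omega

/-- decomposition into seven digits -/
theorem seven_digits {x : Nat} (h : x < 65536 ^ 7) :
    x = x / 65536 ^ 0 % 65536 + (x / 65536 ^ 1 % 65536) * 65536 +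
      (x / 65536 ^ 2 % 65536) * 65536 ^ 2 + (x / 65536 ^ 3 % 65536) * 65536 ^ 3 +
      (x / 65536 ^ 4 % 65536) * 65536 ^ 4 + (x / 65536 ^ 5 % 65536) * 65536 ^ 5 +
      (x / 65536 ^ 6 % 65536) * 65536 ^ 6 := by
  norm_num at h ⊢
  omega

end Pool.Agent.R770.Chk
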