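import Pool.Agent.R770.Sound

/-!
# From a successful check to a triangulation of `ℝP^6`
-/

set_option autoImplicit false

open Finset

namespace Pool.Agent.R770.Chk

/-- what has to be checked by evaluation -/
structure Valid (T : Tr) (C : Nat) (rows : List (Nat × Nat)) : Prop where
  all : T.all (chk T C rows) = true
  len : rows.length = 39
  row : ∀ r ∈ rows, r.1 < 65536 ^ 7 ∧ (∀ j < 7, r.1 / 65536 ^ j % 65536 < 32) ∧
    r.2 + 128 * (r.1 / 65536 ^ 0 % 65536 + r.1 / 65536 ^ 1 % 65536 + r.1 / 65536 ^ 2 % 65536 +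
      r.1 / 65536 ^ 3 % 65536 + r.1 / 65536 ^ 4 % 65536 + r.1 / 65536 ^ 5 % 65536 +
      r.1 / 65536 ^ 6 % 65536) = 79872
  comp1 : ∀ v < 78, ∀ w < 78, C.testBit (78 * v + w) = true → C.testBit (78 * v + opp w) = false
  comp2 : ∀ v < 78, ∀ w < 78, C.testBit (78 * v + w) = C.testBit (78 * opp v + opp w)
  cov : ∀ i < 39, (T.orAll.testBit i || T.orAll.testBit (i + 39)) = true

def vsOf (p : Nat) : List Nat := digits 128 7 p
def rOf (p : Nat) : Nat := p / 562949953421312 / 72057594037927936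
def usOf (p : Nat) : List Nat := digits 256 7 (p / 562949953421312)
def LOf (p : Nat) : Nat := rOf p % 5192296858534827628530496329220096
def cOf (p : Nat) : Nat := rOf p / 5192296858534827628530496329220096

/-- the facts about one facet -/
theorem chk_facts {T : Tr} {C : Nat} {rows : List (Nat × Nat)} {M p : Nat}
    (h : chk T C rows M p = true) :
    M = orMask (vsOf p) ∧ (∀ v ∈ vsOf p, v < 78) ∧ (∀ l ∈ digits 65536 7 (LOf p), l < 256) ∧
    0 < cOf p ∧ rowsOK (LOf p) (65536 + 16 * sumL (digits 65536 7 (LOf p))) (cOf p) rows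
      (M % 549755813888) (M / 549755813888) 0 = true ∧
    nbOK T M (orMask ((vsOf p).map opp)) (vsOf p) (usOf p) = true ∧
    compOK C M (vsOf p) = true := by
  unfold chk at h
  simp only [Bool.and_eq_true] at h
  obtain ⟨⟨⟨h1, h2⟩, h3, h4⟩, h5, h6, h7⟩ := h
  refine ⟨Nat.eq_of_beq_eq_true h1, allLt_iff.mp h2, allLt_iff.mp h3, ?_, h5, h6, h7⟩
  rw [Nat.blt_eq] at h4
  exact h4

theorem compOK_sound {C M : Nat} : ∀ {vs : List Nat}, compOK C M vs = true →
    ∀ v ∈ vs, ∀ w, M.testBit w = true → C.testBit (78 * v + w) = true := by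
  intro vs
  induction vs with
  | nil => intro _ v hv; exact absurd hv (by simp)
  | cons a vs ih =>
    intro h v hv w hw
    rw [compOK, Bool.and_eq_true] at h
    rw [List.mem_cons] at hv
    rcases hv with rfl | hv
    · have h1 := Nat.eq_of_beq_eq_true h.1
      change (M &&& (C / 2 ^ (78 * v))) = M at h1
      have h2 : (M &&& (C / 2 ^ (78 * v))).testBit w = true := by rw [h1]; exact hw
      rw [Nat.testBit_and, Bool.and_eq_true, Nat.testBit_div_two_pow] at h2
      rw [Nat.add_comm]; exact h2.2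
    · exact ih h.2 v hv w hw

theorem nbOK_sound {T : Tr} {M Mn : Nat} : ∀ {vs us : List Nat}, nbOK T M Mn vs us = true →
    ∀ v ∈ vs, (∃ u, u ≠ v ∧ T.mem ((M ^^^ 2 ^ v) ||| 2 ^ u) = true) ∨
      (∃ u, u ≠ opp v ∧ T.mem ((Mn ^^^ 2 ^ (opp v)) ||| 2 ^ u) = true) := by
  intro vs
  induction vs with
  | nil => intro us _ v hv; exact absurd hv (by simp)
  | cons a vs ih =>
    intro us h v hv
    cases us with
    | nil => exact absurd h (by simp [nbOK])
    | cons u us =>
      rw [nbOK, Bool.and_eq_true] at h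
      rw [List.mem_cons] at hv
      rcases hv with rfl | hv
      · rcases hb : Nat.blt u 128 with _ | _
        · have h1 := h.1
          rw [hb, cond_false, Bool.and_eq_true, Bool.not_eq_true'] at h1
          right
          refine ⟨u - 128, ?_, h1.2⟩
          intro he
          rw [he] at h1
          have := h1.1
          rw [Nat.beq_refl] at this
          exact absurd this (by simp)
        · have h1 := h.1
          rw [hb, cond_true, Bool.and_eq_true, Bool.not_eq_true'] at h1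
          left
          refine ⟨u, ?_, h1.2⟩
          intro he
          rw [he] at h1
          have := h1.1
          rw [Nat.beq_refl] at this
          exact absurd this (by simp)
      · exact ih h.2 v hv

section main

variable {T : Tr} {C : Nat} {rows : List (Nat × Nat)} (V : Valid T C rows)

include V

/-- coordinates of the vertices -/
def xnat (rows : List (Nat × Nat)) (i : Nat) (j : Nat) : Nat :=
  (rows.getD i (0, 0)).1 / 65536 ^ j % 65536

def lnat (p : Nat) (j : Nat) : Nat := LOf p / 65536 ^ (6 - j) % 65536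

def dotZ (rows : List (Nat × Nat)) (p : Nat) (i : Nat) : ℤ :=
  ∑ j : Fin 7, ((lnat p j : ℤ) - 128) * ((xnat rows i j : ℤ) - 16)

omit V in
theorem sumL_digits (x : Nat) : sumL (digits 65536 7 x) =
    x / 65536 ^ 0 % 65536 + x / 65536 ^ 1 % 65536 + x / 65536 ^ 2 % 65536 +
      x / 65536 ^ 3 % 65536 + x / 65536 ^ 4 % 65536 + x / 65536 ^ 5 % 65536 +
      x / 65536 ^ 6 % 65536 := by
  simp only [digits, sumL, Nat.div_div_eq_div_mul]
  norm_num
  ring

omit V in
theorem alg (x l : ℕ → ℕ) (E t : ℕ)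
    (hE : E + 128 * (x 0 + x 1 + x 2 + x 3 + x 4 + x 5 + x 6) = 79872)
    (ht : t = x 0 * l 6 + x 1 * l 5 + x 2 * l 4 + x 3 * l 3 + x 4 * l 2 + x 5 * l 1 + x 6 * l 0) :
    (t : ℤ) + E - (65536 + 16 * (l 0 + l 1 + l 2 + l 3 + l 4 + l 5 + l 6) : ℕ) =
      ∑ j : Fin 7, ((l (6 - j) : ℤ) - 128) * ((x j : ℤ) - 16) := by
  have hE' : (E : ℤ) = 79872 - 128 * (x 0 + x 1 + x 2 + x 3 + x 4 + x 5 + x 6) := by
    have := congrArg (Nat.cast : ℕ → ℤ) hE
    push_cast at this
    linarith
  rw [hE', ht]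
  simp only [Fin.sum_univ_succ, Fin.sum_univ_zero]
  simp
  ring

omit V in
theorem tval_digits (x l : ℕ → ℕ) (P L : ℕ) (hx : ∀ j < 7, x j < 32) (hl : ∀ j < 7, l j < 256)
    (hP : P = x 0 + x 1 * 65536 + x 2 * 65536 ^ 2 + x 3 * 65536 ^ 3 + x 4 * 65536 ^ 4 +
      x 5 * 65536 ^ 5 + x 6 * 65536 ^ 6)
    (hL : L = l 0 + l 1 * 65536 + l 2 * 65536 ^ 2 + l 3 * 65536 ^ 3 + l 4 * 65536 ^ 4 +
      l 5 * 65536 ^ 5 + l 6 * 65536 ^ 6) :
    tval P L =
      x 0 * l 6 + x 1 * l 5 + x 2 * l 4 + x 3 * l 3 + x 4 * l 2 + x 5 * l 1 + x 6 * l 0 := by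
  have hL' : L = l 6 * 65536 ^ 6 + l 5 * 65536 ^ 5 + l 4 * 65536 ^ 4 + l 3 * 65536 ^ 3 +
      l 2 * 65536 ^ 2 + l 1 * 65536 + l 0 := by
    rw [hL]; ring
  rw [hP, hL']
  exact tval_eq (hx 0 (by norm_num)) (hx 1 (by norm_num)) (hx 2 (by norm_num))
    (hx 3 (by norm_num)) (hx 4 (by norm_num)) (hx 5 (by norm_num)) (hx 6 (by norm_num))
    (hl 6 (by norm_num)) (hl 5 (by norm_num)) (hl 4 (by norm_num)) (hl 3 (by norm_num))
    (hl 2 (by norm_num)) (hl 1 (by norm_num)) (hl 0 (by norm_num))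

theorem row_value {M p i : Nat} (hi : i < 39) (hc : chk T C rows M p = true) :
    (tval (rows[i]'(by rw [V.len]; exact hi)).1 (LOf p) : ℤ) +
      (rows[i]'(by rw [V.len]; exact hi)).2 -
      (65536 + 16 * sumL (digits 65536 7 (LOf p)) : ℕ) = dotZ rows p i := by
  obtain ⟨-, -, h3, -, -, -, -⟩ := chk_facts hc
  have hlen : i < rows.length := by rw [V.len]; exact hi
  have hL : LOf p < 65536 ^ 7 := by
    unfold LOf
    have : (5192296858534827628530496329220096 : Nat) = 65536 ^ 7 := by norm_num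
    rw [this]
    exact Nat.mod_lt _ (by norm_num)
  have hl : ∀ k < 7, LOf p / 65536 ^ k % 65536 < 256 := by
    intro k hk
    apply h3
    rw [← getElem_digits 65536 7 (LOf p) k hk]
    exact List.getElem_mem _
  have hx : ∀ j, xnat rows i j = (rows[i]'hlen).1 / 65536 ^ j % 65536 := by
    intro j
    unfold xnat
    rw [List.getD_eq_getElem _ _ hlen]
  obtain ⟨hP, hP2, hE⟩ := V.row (rows[i]'hlen) (List.getElem_mem _)
  have h1 := tval_digits (fun j => (rows[i]'hlen).1 / 65536 ^ j % 65536)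
    (fun j => LOf p / 65536 ^ j % 65536) _ _ hP2 hl (seven_digits hP) (seven_digits hL)
  have h2 := alg (fun j => (rows[i]'hlen).1 / 65536 ^ j % 65536)
    (fun j => LOf p / 65536 ^ j % 65536) _ _ hE h1
  rw [sumL_digits, h2]
  unfold dotZ lnat
  exact Finset.sum_congr rfl (fun j _ => by rw [hx])

end main

end Pool.Agent.R770.Chk
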